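import Pool.Agent.W197.Num.Fin

/-! # Number rigidity: final form -/

open Complex Filter Topology Set MeasureTheory

namespace Num

open SG (phi hh nn dd dl)
open SP LG Rig

/-- zeros near `t` -/
theorem zset_eq {T t : ℝ} (hT : 1 ≤ T) (ht1 : T + 1 < t) (ht2 : t ≤ 2 * T - 1) (P : ℂ → Prop)
    [DecidablePred P] (hP : ∀ s, P s → |s.im - t| ≤ 1) :
    {s : ℂ | riemannZeta s = 0 ∧ 0 < s.re ∧ s.re < 1 ∧ P s} =
      (((NoZero.ZZ_finite hT).toFinset.filter P : Finset ℂ) : Set ℂ) := by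
  ext s
  rw [Set.mem_setOf_eq, Finset.mem_coe, Finset.mem_filter, Set.Finite.mem_toFinset]
  constructor
  · rintro ⟨h1, h2, h3, h4⟩
    have h5 := hP s h4
    rw [abs_le] at h5
    exact ⟨⟨h2, h3, by linarith, by linarith, h1⟩, h4⟩
  · rintro ⟨⟨h1, h2, h3, h4, h5⟩, h6⟩
    exact ⟨h5, h1, h2, h6⟩

open Classical in
/-- the weight -/
noncomputable def ww (h D u : ℝ) : ℝ := if |u| ≤ h then 1 else Real.log (h * D / |u|) / Real.log D

open Classical in
theorem NL_split {T t h D : ℝ} (hT : 1 ≤ T) (ht1 : T + 1 < t) (ht2 : t ≤ 2 * T - 1)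
    (hh : 0 < h) (hD : 1 < D) (hhD : h * D ≤ 1) (J : Set ℝ) (hJ : J ⊆ Set.Icc (t - h) (t + h)) :
    Real.log D * (((∑ᶠ s ∈ {s : ℂ | riemannZeta s = 0 ∧ 0 < s.re ∧ s.re < 1 ∧ s.im ∈ J},
      analyticOrderNatAt riemannZeta s : ℕ) : ℝ) +
      ∑ᶠ s ∈ {s : ℂ | riemannZeta s = 0 ∧ 0 < s.re ∧ s.re < 1 ∧ (s.im ∉ J ∧ |s.im - t| ≤ h * D)},
        (analyticOrderNatAt riemannZeta s : ℝ) * ww h D (s.im - t)) = NL T h D t := by
  have hhD' : h ≤ h * D := le_mul_of_one_le_right hh.le hD.le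
  have hlD : 0 < Real.log D := Real.log_pos hD
  have hP1 : ∀ s : ℂ, s.im ∈ J → |s.im - t| ≤ h := by
    intro s hs
    have := hJ hs
    rw [abs_le]
    constructor <;> linarith [this.1, this.2]
  rw [zset_eq hT ht1 ht2 (fun s => s.im ∈ J) (fun s hs => (hP1 s hs).trans (by linarith)),
    zset_eq hT ht1 ht2 (fun s => s.im ∉ J ∧ |s.im - t| ≤ h * D) (fun s hs => hs.2.trans hhD),
    finsum_mem_coe_finset, finsum_mem_coe_finset, NL_eq hT]
  set F := (NoZero.ZZ_finite hT).toFinset with hF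
  have h1 : ∑ s ∈ F, (mu s : ℝ) * Lg h D (s.im - t) =
      (∑ s ∈ F.filter (fun s => s.im ∈ J), (mu s : ℝ) * Lg h D (s.im - t)) +
      ∑ s ∈ F.filter (fun s => s.im ∉ J), (mu s : ℝ) * Lg h D (s.im - t) :=
    (Finset.sum_filter_add_sum_filter_not F _ _).symm
  have h2 : ∑ s ∈ F.filter (fun s => s.im ∉ J), (mu s : ℝ) * Lg h D (s.im - t) =
      ∑ s ∈ F.filter (fun s => s.im ∉ J ∧ |s.im - t| ≤ h * D),
        (mu s : ℝ) * Lg h D (s.im - t) := by
    symm
    apply Finset.sum_subset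
    · intro s hs
      rw [Finset.mem_filter] at hs ⊢
      exact ⟨hs.1, hs.2.1⟩
    · intro s hs1 hs2
      rw [Finset.mem_filter] at hs1 hs2
      have h3 : ¬ |s.im - t| ≤ h * D := fun h4 => hs2 ⟨hs1.1, hs1.2, h4⟩
      unfold Lg
      rw [if_neg (fun h4 => h3 (h4.trans hhD')), if_neg h3, mul_zero]
  rw [h1, h2, mul_add, Nat.cast_sum, Finset.mul_sum, Finset.mul_sum]
  congr 1
  · refine Finset.sum_congr rfl fun s hs => ?_
    rw [Finset.mem_filter] at hs
    unfold Lg
    rw [if_pos (hP1 s hs.2), mul_comm]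
    rfl
  · refine Finset.sum_congr rfl fun s hs => ?_
    rw [Finset.mem_filter] at hs
    unfold Lg ww
    by_cases h3 : |s.im - t| ≤ h
    · rw [if_pos h3, if_pos h3, mul_one, mul_comm]
      rfl
    · rw [if_neg h3, if_neg h3, if_pos hs.2.2]
      show _ = (analyticOrderNatAt riemannZeta s : ℝ) * _
      field_simp

theorem final (hRH : RHs) : ∃ c C T0 : ℝ, 0 < c ∧ 0 < C ∧ 10 ≤ T0 ∧ ∀ T : ℝ, T0 ≤ T →
    ∀ h D : ℝ, 2 ≤ D → Real.log D ≤ h * Real.log T → h * D ≤ 1 →
    ∃ E : Set ℝ, MeasurableSet E ∧ volume E ≤ ENNReal.ofReal (C * T * D ^ (-c)) ∧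
      ∀ t ∈ Set.Icc T (2 * T) \ E, ∀ J ⊆ Set.Icc (t - h) (t + h),
      |((∑ᶠ s ∈ {s : ℂ | riemannZeta s = 0 ∧ 0 < s.re ∧ s.re < 1 ∧ s.im ∈ J},
        analyticOrderNatAt riemannZeta s : ℕ) : ℝ) -
        (h * (D - 1) * Real.log T / (Real.pi * Real.log D) -
        ∑ᶠ s ∈ {s : ℂ | riemannZeta s = 0 ∧ 0 < s.re ∧ s.re < 1 ∧
          (s.im ∉ J ∧ |s.im - t| ≤ h * D)},
          (analyticOrderNatAt riemannZeta s : ℝ) * ww h D (s.im - t))| < 1 / 4 := by
  classical
  obtain ⟨c, C, T0, hc, hC, hT0, H⟩ := main hRH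
  refine ⟨min c 1, C + 2, max T0 20000, lt_min hc one_pos, by positivity,
    hT0.trans (le_max_left _ _), ?_⟩
  intro T hT h D hD hLh hhD
  have hT1 : T0 ≤ T := (le_max_left _ _).trans hT
  have hT2 : 20000 ≤ T := (le_max_right _ _).trans hT
  have hTone : 1 ≤ T := by linarith
  have hTpos : 0 < T := by linarith
  have hD0 : 0 < D := by linarith
  have hlog2 := Real.log_two_gt_d9
  have hLam2 : Real.log 2 ≤ Real.log D := Real.log_le_log (by norm_num) hD
  have hlD : 0 < Real.log D := by linarith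
  have hL0 : 0 < Real.log T := Real.log_pos (by linarith)
  have hh : 0 < h := by
    by_contra hcon
    push Not at hcon
    have : h * Real.log T ≤ 0 := mul_nonpos_of_nonpos_of_nonneg hcon hL0.le
    linarith
  have hpi := Real.pi_pos
  set bad : Set ℝ := {t | t ∈ Set.Icc T (2 * T) ∧
      Real.log D / 4 ≤ |NL T h D t - Real.log T * (h * D - h) / Real.pi|} with hbad
  have hbad1 : bad ⊆ Set.Icc T (2 * T) := fun t ht => ht.1
  have hbadtop : volume bad ≠ ⊤ := ((measure_mono hbad1).trans_lt measure_Icc_lt_top).ne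
  have hb := H T hT1 h D hD hLh hhD
  set E : Set ℝ := toMeasurable volume bad ∪ (Set.Icc T (T + 1) ∪ Set.Icc (2 * T - 1) (2 * T))
    with hE
  refine ⟨E, ?_, ?_, ?_⟩
  · exact (measurableSet_toMeasurable _ _).union (measurableSet_Icc.union measurableSet_Icc)
  · have e1 : volume E ≤ volume bad + (ENNReal.ofReal 1 + ENNReal.ofReal 1) := by
      refine (measure_union_le _ _).trans ?_
      rw [measure_toMeasurable]
      gcongr
      refine (measure_union_le _ _).trans ?_
      rw [Real.volume_Icc, Real.volume_Icc]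
      apply le_of_eq
      congr 1 <;> congr 1 <;> ring
    have e2 : volume bad ≤ ENNReal.ofReal (C * T * D ^ (-c)) := by
      rw [ENNReal.le_ofReal_iff_toReal_le hbadtop (by positivity)]
      exact hb
    have e3 : D ^ (-c) ≤ D ^ (-(min c 1)) :=
      Real.rpow_le_rpow_of_exponent_le (by linarith) (by
        have := min_le_left c 1
        linarith)
    have e4 : 2 ≤ 2 * (T * D ^ (-(min c 1))) := by
      have h1 : D ^ (-1 : ℝ) ≤ D ^ (-(min c 1)) :=
        Real.rpow_le_rpow_of_exponent_le (by linarith) (by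
          have := min_le_right c 1
          linarith)
      rw [Real.rpow_neg_one] at h1
      have h2 : D ≤ T := by
        have h3 : D * Real.log D ≤ Real.log T := by
          have h4 : D * Real.log D ≤ D * (h * Real.log T) := mul_le_mul_of_nonneg_left hLh hD0.le
          have h5 : D * (h * Real.log T) = (h * D) * Real.log T := by ring
          have h6 : (h * D) * Real.log T ≤ 1 * Real.log T := mul_le_mul_of_nonneg_right hhD hL0.le
          linarith
        have h4 : D * (1 / 2) ≤ D * Real.log D := mul_le_mul_of_nonneg_left (by linarith) hD0.le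
        have h5 : Real.log T ≤ T ^ (1 / 2 : ℝ) / (1 / 2) :=
          Real.log_le_rpow_div hTpos.le (by norm_num)
        have h6 : T ^ (1 / 2 : ℝ) * T ^ (1 / 2 : ℝ) = T := by
          rw [← Real.rpow_add hTpos]
          norm_num
        have h7 : 4 ≤ T ^ (1 / 2 : ℝ) := by
          have : (4 : ℝ) = ((4 : ℝ) ^ 2) ^ (1 / 2 : ℝ) := by
            rw [← Real.rpow_natCast, ← Real.rpow_mul (by norm_num)]
            norm_num
          rw [this]
          apply Real.rpow_le_rpow (by norm_num) _ (by norm_num)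
          linarith
        have h8 : 4 * T ^ (1 / 2 : ℝ) ≤ T ^ (1 / 2 : ℝ) * T ^ (1 / 2 : ℝ) :=
          mul_le_mul_of_nonneg_right h7 (by positivity)
        linarith
      have h3 : 1 ≤ T * D⁻¹ := by
        rw [← div_eq_mul_inv, le_div_iff₀ hD0]
        linarith
      have h4 : T * D⁻¹ ≤ T * D ^ (-(min c 1)) := mul_le_mul_of_nonneg_left h1 hTpos.le
      linarith
    refine e1.trans ?_
    have e5 : ENNReal.ofReal 1 + ENNReal.ofReal 1 = ENNReal.ofReal 2 := by
      rw [← ENNReal.ofReal_add (by norm_num) (by norm_num)]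
      norm_num
    rw [e5]
    refine (add_le_add_left e2 _).trans ?_
    rw [← ENNReal.ofReal_add (by positivity) (by norm_num)]
    apply ENNReal.ofReal_le_ofReal
    have e6 := mul_le_mul_of_nonneg_left e3 (by positivity : 0 ≤ C * T)
    calc C * T * D ^ (-c) + 2 ≤ C * T * D ^ (-(min c 1)) + 2 * (T * D ^ (-(min c 1))) := by
          linarith
      _ = _ := by ring
  · intro t ht J hJ
    obtain ⟨ht0, htE⟩ := ht
    rw [hE, Set.mem_union, Set.mem_union, not_or, not_or] at htE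
    obtain ⟨n1, n2, n3⟩ := htE
    have ht1 : T + 1 < t := by
      by_contra hcon
      exact n2 ⟨ht0.1, not_lt.1 hcon⟩
    have ht2 : t ≤ 2 * T - 1 := by
      by_contra hcon
      exact n3 ⟨(not_le.1 hcon).le, ht0.2⟩
    have h1 : |NL T h D t - Real.log T * (h * D - h) / Real.pi| < Real.log D / 4 := by
      by_contra hcon
      exact n1 (subset_toMeasurable _ _ ⟨ht0, not_lt.1 hcon⟩)
    rw [← NL_split hTone ht1 ht2 hh (by linarith) hhD J hJ] at h1
    set A : ℝ := ((∑ᶠ s ∈ {s : ℂ | riemannZeta s = 0 ∧ 0 < s.re ∧ s.re < 1 ∧ s.im ∈ J},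
        analyticOrderNatAt riemannZeta s : ℕ) : ℝ) with hA
    set B : ℝ := ∑ᶠ s ∈ {s : ℂ | riemannZeta s = 0 ∧ 0 < s.re ∧ s.re < 1 ∧
          (s.im ∉ J ∧ |s.im - t| ≤ h * D)},
          (analyticOrderNatAt riemannZeta s : ℝ) * ww h D (s.im - t) with hB
    have e1 : Real.log D * (A + B) - Real.log T * (h * D - h) / Real.pi =
        Real.log D * (A - (h * (D - 1) * Real.log T / (Real.pi * Real.log D) - B)) := by
      field_simp
      ring
    rw [e1, abs_mul, abs_of_pos hlD] at h1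
    have h2 : Real.log D * |A - (h * (D - 1) * Real.log T / (Real.pi * Real.log D) - B)| <
        Real.log D * (1 / 4) := by linarith
    exact lt_of_mul_lt_mul_left h2 hlD.le

end Num
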