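import Pool.Agent.W197.Num.Z

/-! # Averages over shifts; Markov's inequality -/

open Complex Filter Topology Set MeasureTheory

namespace Num

open Rig

/-- weighted average over shifts -/
noncomputable def RR (F : ℝ → ℝ) (h D t : ℝ) : ℝ :=
  (F (t + h * D) + F (t - h * D)) / (h * D) + (F (t + h) + F (t - h)) / h +
    ∫ x in h..(h * D), (F (t + x) + F (t - x)) / x ^ 2

theorem ME_eq (T k h D t : ℝ) : ME T k h D t = RR (SP.Mk T k) h D t := rfl

theorem RR_alt {F : ℝ → ℝ} {h D : ℝ} (hh : 0 < h) (hD : 1 ≤ D) (t : ℝ) : RR F h D t =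
    (F (t + h * D) + F (t - h * D)) / (h * D) + (F (t + h) + F (t - h)) / h +
    ∫ x in h..(h * D), (F (t + x) + F (t - x)) / (max x h) ^ 2 := by
  have hhD : h ≤ h * D := le_mul_of_one_le_right hh.le hD
  unfold RR
  congr 1
  refine intervalIntegral.integral_congr fun x hx => ?_
  rw [uIcc_of_le hhD] at hx
  show _ / x ^ 2 = _ / (max x h) ^ 2
  rw [max_eq_left hx.1]

theorem RR_cont {F : ℝ → ℝ} (hF : Continuous F) {h D : ℝ} (hh : 0 < h) (hD : 1 ≤ D) :
    Continuous (RR F h D) := by
  have e : RR F h D = fun t => (F (t + h * D) + F (t - h * D)) / (h * D) +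
      (F (t + h) + F (t - h)) / h +
      ∫ x in h..(h * D), (F (t + x) + F (t - x)) / (max x h) ^ 2 := by
    funext t
    exact RR_alt hh hD t
  rw [e]
  apply Continuous.add
  · fun_prop
  · apply intervalIntegral.continuous_parametric_intervalIntegral_of_continuous'
    unfold Function.uncurry
    apply Continuous.div
    · fun_prop
    · fun_prop
    · intro x
      have : 0 < max x.2 h := lt_max_of_lt_right hh
      positivity

theorem swapII {G : ℝ → ℝ → ℝ} (hG : Continuous (Function.uncurry G)) {a b c d : ℝ} (hab : a ≤ b)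
    (hcd : c ≤ d) : ∫ t in a..b, (∫ x in c..d, G t x) = ∫ x in c..d, (∫ t in a..b, G t x) := by
  simp_rw [intervalIntegral.integral_of_le hab, intervalIntegral.integral_of_le hcd]
  apply integral_integral_swap
  rw [Measure.prod_restrict]
  have h1 : IntegrableOn (Function.uncurry G) (Set.Icc a b ×ˢ Set.Icc c d) (volume.prod volume) := by
    apply ContinuousOn.integrableOn_compact (isCompact_Icc.prod isCompact_Icc)
    exact hG.continuousOn
  exact h1.mono_set (Set.prod_mono Set.Ioc_subset_Icc_self Set.Ioc_subset_Icc_self)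

theorem RR_int {F : ℝ → ℝ} (hF : Continuous F) {h D V1 V2 V S : ℝ} (hh : 0 < h)
    (hD : 1 ≤ D) (hV : V1 ≤ V2) (hV1 : V ≤ V1 - h * D) (hV2 : V2 + h * D ≤ 2 * V)
    (hS : ∀ U1 U2 : ℝ, V ≤ U1 → U1 ≤ U2 → U2 ≤ 2 * V → ∫ t in U1..U2, F t ≤ S) :
    ∫ t in V1..V2, RR F h D t ≤ 4 * S / h := by
  have hhD : h ≤ h * D := le_mul_of_one_le_right hh.le hD
  have hb : 0 < h * D := by positivity
  have hsh : ∀ a : ℝ, |a| ≤ h * D → ∫ t in V1..V2, F (t + a) ≤ S := by
    intro a ha
    rw [abs_le] at ha
    rw [intervalIntegral.integral_comp_add_right]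
    exact hS _ _ (by linarith) (by linarith) (by linarith)
  have hsh2 : ∀ x : ℝ, 0 ≤ x → x ≤ h * D → ∫ t in V1..V2, (F (t + x) + F (t - x)) ≤ 2 * S := by
    intro x hx0 hx
    rw [intervalIntegral.integral_add]
    · have h1 := hsh x (by rw [abs_of_nonneg hx0]; exact hx)
      have h2 := hsh (-x) (by rw [abs_neg, abs_of_nonneg hx0]; exact hx)
      simp only [← sub_eq_add_neg] at h2
      linarith
    · apply Continuous.intervalIntegrable; fun_prop
    · apply Continuous.intervalIntegrable; fun_prop
  have e : ∀ t, RR F h D t = (F (t + h * D) + F (t - h * D)) / (h * D) +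
      (F (t + h) + F (t - h)) / h +
      ∫ x in h..(h * D), (F (t + x) + F (t - x)) / (max x h) ^ 2 := fun t => RR_alt hh hD t
  have hGc : Continuous (Function.uncurry fun t x => (F (t + x) + F (t - x)) / (max x h) ^ 2) := by
    unfold Function.uncurry
    apply Continuous.div
    · fun_prop
    · fun_prop
    · intro x
      have : 0 < max x.2 h := lt_max_of_lt_right hh
      positivity
  have hGc2 : Continuous fun t : ℝ => ∫ x in h..(h * D), (F (t + x) + F (t - x)) / (max x h) ^ 2 :=
    intervalIntegral.continuous_parametric_intervalIntegral_of_continuous' hGc _ _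
  have hGc3 : Continuous fun x : ℝ => ∫ t in V1..V2, (F (t + x) + F (t - x)) / (max x h) ^ 2 := by
    apply intervalIntegral.continuous_parametric_intervalIntegral_of_continuous'
    unfold Function.uncurry
    apply Continuous.div
    · fun_prop
    · fun_prop
    · intro x
      have : 0 < max x.1 h := lt_max_of_lt_right hh
      positivity
  simp_rw [e]
  have hpos : ∀ x ∈ uIcc h (h * D), x ^ 2 ≠ 0 := by
    intro x hx
    rw [uIcc_of_le hhD] at hx
    exact pow_ne_zero 2 (hh.trans_le hx.1).ne'
  rw [intervalIntegral.integral_add, intervalIntegral.integral_add,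
    intervalIntegral.integral_div, intervalIntegral.integral_div, swapII hGc hV hhD]
  · have h1 := div_le_div_of_nonneg_right (hsh2 (h * D) hb.le le_rfl) hb.le
    have h2 := div_le_div_of_nonneg_right (hsh2 h hh.le hhD) hh.le
    have h3 : ∫ x in h..(h * D), (∫ t in V1..V2, (F (t + x) + F (t - x)) / (max x h) ^ 2) ≤
        ∫ x in h..(h * D), (2 * S) / x ^ 2 := by
      apply intervalIntegral.integral_mono_on hhD
      · exact hGc3.intervalIntegrable _ _
      · apply ContinuousOn.intervalIntegrable
        exact continuousOn_const.div (continuous_id.pow 2).continuousOn hpos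
      · intro x hx
        rw [intervalIntegral.integral_div, max_eq_left hx.1]
        exact div_le_div_of_nonneg_right (hsh2 x (hh.le.trans hx.1) hx.2) (by positivity)
    rw [inv_sq_int hh hhD] at h3
    have e2 : 4 * S / h = 2 * S / (h * D) + 2 * S / h + (2 * S / h - 2 * S / (h * D)) := by ring
    rw [e2]
    linarith
  · apply Continuous.intervalIntegrable; fun_prop
  · apply Continuous.intervalIntegrable; fun_prop
  · apply Continuous.intervalIntegrable; fun_prop
  · exact hGc2.intervalIntegrable _ _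

theorem RR_le {F G : ℝ → ℝ} (hF : Continuous F) (hG : Continuous G) {h D t a b : ℝ} (hh : 0 < h)
    (hD : 1 ≤ D) (hFG : ∀ s ∈ Set.Icc (t - h * D) (t + h * D), F s ≤ a + b * G s) :
    RR F h D t ≤ 4 * a / h + b * RR G h D t := by
  have hhD : h ≤ h * D := le_mul_of_one_le_right hh.le hD
  have hb : 0 < h * D := by positivity
  have hpos : ∀ x ∈ uIcc h (h * D), x ^ 2 ≠ 0 := by
    intro x hx
    rw [uIcc_of_le hhD] at hx
    exact pow_ne_zero 2 (hh.trans_le hx.1).ne'
  have h1 : ∀ x : ℝ, 0 ≤ x → x ≤ h * D →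
      F (t + x) + F (t - x) ≤ 2 * a + b * (G (t + x) + G (t - x)) := by
    intro x hx0 hx
    have a1 := hFG (t + x) ⟨by linarith, by linarith⟩
    have a2 := hFG (t - x) ⟨by linarith, by linarith⟩
    linarith
  have h2 := div_le_div_of_nonneg_right (h1 (h * D) hb.le le_rfl) hb.le
  have h3 := div_le_div_of_nonneg_right (h1 h hh.le hhD) hh.le
  have i1 : IntervalIntegrable (fun x : ℝ => (2 * a) / x ^ 2) volume h (h * D) := by
    apply ContinuousOn.intervalIntegrable
    exact continuousOn_const.div (continuous_id.pow 2).continuousOn hpos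
  have i2 : ∀ H : ℝ → ℝ, Continuous H → IntervalIntegrable
      (fun x : ℝ => (H (t + x) + H (t - x)) / x ^ 2) volume h (h * D) := by
    intro H hH
    apply ContinuousOn.intervalIntegrable
    apply ContinuousOn.div _ (continuous_id.pow 2).continuousOn hpos
    fun_prop
  have h4 : ∫ x in h..(h * D), (F (t + x) + F (t - x)) / x ^ 2 ≤
      ∫ x in h..(h * D), ((2 * a) / x ^ 2 + b * ((G (t + x) + G (t - x)) / x ^ 2)) := by
    apply intervalIntegral.integral_mono_on hhD (i2 F hF) (i1.add ((i2 G hG).const_mul b))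
    intro x hx
    have hx0 : 0 < x := hh.trans_le hx.1
    have h5 := div_le_div_of_nonneg_right (h1 x hx0.le hx.2) (by positivity : 0 ≤ x ^ 2)
    refine h5.trans (le_of_eq ?_)
    ring
  rw [intervalIntegral.integral_add i1 ((i2 G hG).const_mul b),
    intervalIntegral.integral_const_mul, inv_sq_int hh hhD] at h4
  unfold RR
  have e2 : 4 * a / h = 2 * a / (h * D) + 2 * a / h + (2 * a / h - 2 * a / (h * D)) := by ring
  have e3 : (2 * a + b * (G (t + h * D) + G (t - h * D))) / (h * D) =
      2 * a / (h * D) + b * ((G (t + h * D) + G (t - h * D)) / (h * D)) := by ring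
  have e4 : (2 * a + b * (G (t + h) + G (t - h))) / h =
      2 * a / h + b * ((G (t + h) + G (t - h)) / h) := by ring
  rw [e3] at h2
  rw [e4] at h3
  rw [e2]
  linarith

theorem markov {f : ℝ → ℝ} (hf : Continuous f) (hf0 : ∀ t, 0 ≤ f t) {V1 V2 e : ℝ} (hV : V1 ≤ V2)
    (he : 0 < e) : volume.real ({t | e ≤ f t} ∩ Set.Icc V1 V2) ≤ (∫ t in V1..V2, f t) / e := by
  have h1 := mul_meas_ge_le_integral_of_nonneg (μ := volume.restrict (Set.Icc V1 V2)) (f := f)
    (Eventually.of_forall hf0) (hf.integrableOn_Icc) e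
  have h2 : (volume.restrict (Set.Icc V1 V2)).real {t | e ≤ f t} =
      volume.real ({t | e ≤ f t} ∩ Set.Icc V1 V2) := by
    rw [measureReal_restrict_apply]
    exact measurableSet_le measurable_const hf.measurable
  rw [h2] at h1
  rw [intervalIntegral.integral_of_le hV, ← integral_Icc_eq_integral_Ioc, le_div_iff₀ he]
  linarith

end Num
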