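import Pool.Agent.W197.Num.M
import Pool.Agent.W197.Num.R
import Pool.Agent.W197.Rig.F2

/-! # Number rigidity: assembly -/

open Complex Filter Topology Set MeasureTheory

namespace Num

open SG (phi hh nn dd dl)
open SP LG Rig

theorem q_split {q B : ℝ} (hq : 0 ≤ q) (hB : 1 ≤ B) {k : ℕ} (hk : 1 ≤ k) :
    1 + q ≤ 2 * B + B * (q / B) ^ (2 * k) := by
  have hB0 : 0 < B := by linarith
  rcases le_total q B with h | h
  · have : 0 ≤ B * (q / B) ^ (2 * k) := by positivity
    linarith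
  · have h1 : 1 ≤ q / B := by rw [le_div_iff₀ hB0]; linarith
    have h2 : q / B ≤ (q / B) ^ (2 * k) := le_self_pow₀ h1 (by omega)
    have h3 : q = B * (q / B) := by field_simp
    have h4 : B * (q / B) ≤ B * (q / B) ^ (2 * k) := mul_le_mul_of_nonneg_left h2 hB0.le
    linarith

/-- real constants -/
structure Cst (C1 C2 c0 CA CM CQ B th c1 : ℝ) : Prop where
  hC1 : 0 < C1
  hC2 : 0 < C2
  hc0 : 0 < c0
  hCA : 1 ≤ CA
  hCM : 0 < CM
  hCQ : 0 < CQ
  hB : B = 3 * (1 + CQ)
  hth : th = 1 / (32 * C1)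
  hc1 : 0 < c1
  h1 : c1 ≤ 1
  h2 : c1 ≤ c0
  h3 : c1 ≤ th ^ 2 / (12 * CA)
  h4 : c1 ≤ 1 / (192 * C1 * CM * B)

theorem exists_cst {C1 C2 c0 CA CM CQ : ℝ} (hC1 : 0 < C1) (hC2 : 0 < C2) (hc0 : 0 < c0)
    (hCA : 1 ≤ CA) (hCM : 0 < CM) (hCQ : 0 < CQ) : ∃ B th c1 : ℝ, Cst C1 C2 c0 CA CM CQ B th c1 := by
  refine ⟨3 * (1 + CQ), 1 / (32 * C1), min (min 1 c0) (min ((1 / (32 * C1)) ^ 2 / (12 * CA))
    (1 / (192 * C1 * CM * (3 * (1 + CQ))))), ?_⟩
  refine ⟨hC1, hC2, hc0, hCA, hCM, hCQ, rfl, rfl, ?_, ?_, ?_, ?_, ?_⟩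
  · apply lt_min
    · exact lt_min one_pos hc0
    · apply lt_min <;> positivity
  · exact (min_le_left _ _).trans (min_le_left _ _)
  · exact (min_le_left _ _).trans (min_le_right _ _)
  · exact (min_le_right _ _).trans (min_le_left _ _)
  · exact (min_le_right _ _).trans (min_le_right _ _)

/-- the pointwise estimate off the exceptional sets -/
theorem pointwise {C1 C2 c0 CA CM CQ B th c1 : ℝ} (hc : Cst C1 C2 c0 CA CM CQ B th c1)
    {L h D Lam X a1 a2 me : ℝ} {k : ℕ} (hL : 0 < L) (hh : 0 < h) (hhD : h * D ≤ 1)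
    (hD : 1 ≤ D) (hLam : 0 < Lam) (hLh : Lam ≤ h * L) (hbig : 16 * C1 * (1 + C2) ≤ Lam)
    (hk : (k : ℝ) ≤ c1 * Lam) (hX : X ≤ C1 * ((h * D - h) + (C2 * (h * D - h) + a1 + a2) +
      k / L * me)) (ha1 : a1 ≤ th * Lam) (ha2 : a2 ≤ th * Lam)
    (hme : me ≤ 12 * CM * k * B / h) : X < Lam / 4 := by
  obtain ⟨hC1, hC2, hc0, hCA, hCM, hCQ, hB, hth, hc1, h1, h2, h3, h4⟩ := hc
  have hB0 : 0 < B := by rw [hB]; positivity
  have hk0 : (0 : ℝ) ≤ k := Nat.cast_nonneg k
  have e1 : C1 * ((h * D - h) + C2 * (h * D - h)) ≤ Lam / 16 := by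
    have h5 : h * D - h ≤ 1 := by linarith
    have h6 : 0 ≤ h * D - h := by
      have := le_mul_of_one_le_right hh.le hD
      linarith
    calc C1 * ((h * D - h) + C2 * (h * D - h)) = C1 * (1 + C2) * (h * D - h) := by ring
      _ ≤ C1 * (1 + C2) * 1 := mul_le_mul_of_nonneg_left h5 (by positivity)
      _ ≤ _ := by linarith
  have e2 : C1 * (a1 + a2) ≤ Lam / 16 := by
    calc C1 * (a1 + a2) ≤ C1 * (th * Lam + th * Lam) :=
          mul_le_mul_of_nonneg_left (by linarith) hC1.le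
      _ = Lam / 16 := by
          rw [hth]
          field_simp
          ring
  have e3 : C1 * (k / L * me) ≤ Lam / 16 := by
    have h5 : k / L * me ≤ k / L * (12 * CM * k * B / h) :=
      mul_le_mul_of_nonneg_left hme (by positivity)
    have h6 : k / L * (12 * CM * k * B / h) = 12 * CM * B * (k * k) / (h * L) := by
      field_simp
    have h7 : 12 * CM * B * (k * k) / (h * L) ≤ 12 * CM * B * ((c1 * Lam) * (c1 * Lam)) / Lam := by
      apply div_le_div₀ (by positivity) _ hLam hLh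
      apply mul_le_mul_of_nonneg_left _ (by positivity)
      exact mul_le_mul hk hk hk0 (by positivity)
    have h8 : 12 * CM * B * ((c1 * Lam) * (c1 * Lam)) / Lam = 12 * CM * B * c1 * Lam * c1 := by
      field_simp
    have h9 : 12 * CM * B * c1 * Lam * c1 ≤ 12 * CM * B * c1 * Lam * 1 :=
      mul_le_mul_of_nonneg_left h1 (by positivity)
    have h10 : 12 * CM * B * c1 ≤ 1 / (16 * C1) := by
      calc 12 * CM * B * c1 ≤ 12 * CM * B * (1 / (192 * C1 * CM * B)) :=
            mul_le_mul_of_nonneg_left h4 (by positivity)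
        _ = 1 / (16 * C1) := by
            field_simp
            norm_num
    have h11 : 12 * CM * B * c1 * Lam ≤ 1 / (16 * C1) * Lam :=
      mul_le_mul_of_nonneg_right h10 hLam.le
    calc C1 * (k / L * me) ≤ C1 * (1 / (16 * C1) * Lam) := by
          apply mul_le_mul_of_nonneg_left _ hC1.le
          linarith
      _ = Lam / 16 := by field_simp
  have e4 : C1 * ((h * D - h) + (C2 * (h * D - h) + a1 + a2) + k / L * me) =
      C1 * ((h * D - h) + C2 * (h * D - h)) + C1 * (a1 + a2) + C1 * (k / L * me) := by ring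
  linarith

theorem pow_third {r : ℝ} (hr0 : 0 ≤ r) (hr : r ≤ 1 / 3) (k : ℕ) : r ^ k ≤ Real.exp (-k) := by
  have h1 : r ≤ Real.exp (-1) := by
    have : Real.exp 1 < 3 := Real.exp_one_lt_d9.trans (by norm_num)
    rw [Real.exp_neg]
    refine hr.trans ?_
    rw [one_div]
    exact inv_anti₀ (Real.exp_pos 1) this.le
  calc r ^ k ≤ (Real.exp (-1)) ^ k := pow_le_pow_left₀ hr0 h1 k
    _ = Real.exp (-k) := by
        rw [← Real.exp_nat_mul]
        congr 1
        ring

theorem main (hRH : RHs) : ∃ c C T0 : ℝ, 0 < c ∧ 0 < C ∧ 10 ≤ T0 ∧ ∀ T : ℝ, T0 ≤ T →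
    ∀ h D : ℝ, 2 ≤ D → Real.log D ≤ h * Real.log T → h * D ≤ 1 →
    volume.real {t | t ∈ Set.Icc T (2 * T) ∧
      Real.log D / 4 ≤ |NL T h D t - Real.log T * (h * D - h) / Real.pi|} ≤
      C * T * D ^ (-c) := by
  obtain ⟨C1, c0, T1, hC1, hc0, hT1, Hlog⟩ := log_stat hRH
  obtain ⟨C2, hC2, HPI⟩ := PI_main
  obtain ⟨CA, TA, hCA, hTA, HA⟩ := mom_A
  obtain ⟨CM, TM, hCM, hTM, HM⟩ := Mk_bound hRH (1 / 4) (by norm_num) (by norm_num)
  obtain ⟨CQ, TQ, hCQ, hTQ, HQ⟩ := CTAux.leb_mom (1 / 4) (by norm_num) (by norm_num)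
  obtain ⟨B, th, c1, hc⟩ := exists_cst hC1 hC2 hc0 hCA hCM hCQ
  have hc' := hc
  obtain ⟨_, _, _, _, _, _, hB, hth, hc1, hc1', hc1c0, hc13, hc14⟩ := hc'
  have hB1 : 1 ≤ B := by rw [hB]; linarith
  have hth0 : 0 < th := by rw [hth]; positivity
  set Lam0 : ℝ := 16 * C1 * (1 + C2) + 1 / c1 with hLam0
  have hLam00 : 0 < Lam0 := by positivity
  refine ⟨c1, Real.exp Lam0 + 50, max (max (max T1 TA) (max TM TQ)) 20000, hc1, by positivity,
    by
      refine le_trans (by norm_num) (le_max_right _ _), ?_⟩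
  intro T hT h D hD hLh hhD
  have hT' : max (max T1 TA) (max TM TQ) ≤ T := (le_max_left _ _).trans hT
  have hT2 : T1 ≤ T := ((le_max_left _ _).trans (le_max_left _ _)).trans hT'
  have hT3 : TA ≤ T := ((le_max_right _ _).trans (le_max_left _ _)).trans hT'
  have hT4 : TM ≤ T := ((le_max_left _ _).trans (le_max_right _ _)).trans hT'
  have hT5 : TQ ≤ T := ((le_max_right _ _).trans (le_max_right _ _)).trans hT'
  have hT6 : 20000 ≤ T := (le_max_right _ _).trans hT
  have hT10 : 10 ≤ T := by linarith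
  have hT1' : 1 ≤ T := by linarith
  have hT0 : 0 < T := by linarith
  set L := Real.log T with hLd
  have hL0 : 0 < L := Real.log_pos (by linarith)
  have hD0 : 0 < D := by linarith
  have hD1 : 1 ≤ D := by linarith
  set Lam := Real.log D with hLamd
  have hlog2 := Real.log_two_gt_d9
  have hLam2 : Real.log 2 ≤ Lam := Real.log_le_log (by norm_num) hD
  have hLampos : 0 < Lam := by linarith
  have hh : 0 < h := by
    by_contra hcon
    push Not at hcon
    have : h * L ≤ 0 := mul_nonpos_of_nonpos_of_nonneg hcon hL0.le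
    linarith
  have hh1 : h ≤ 1 := (le_mul_of_one_le_right hh.le hD1).trans hhD
  have hDc : D ^ (-c1) = Real.exp (-(c1 * Lam)) := by
    rw [Real.rpow_def_of_pos hD0]
    congr 1
    ring
  -- trivial range
  rcases lt_or_ge Lam Lam0 with hsmall | hbig
  · have h1 : volume.real {t | t ∈ Set.Icc T (2 * T) ∧
        Lam / 4 ≤ |NL T h D t - L * (h * D - h) / Real.pi|} ≤ T := by
      calc _ ≤ volume.real (Set.Icc T (2 * T)) := by
            exact measureReal_mono (fun t ht => ht.1) measure_Icc_lt_top.ne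
        _ = T := by
            rw [Real.volume_real_Icc_of_le (by linarith)]
            ring
    refine h1.trans ?_
    have h2 : 1 ≤ (Real.exp Lam0 + 50) * D ^ (-c1) := by
      rw [hDc]
      have h3 : Real.exp (-Lam0) ≤ Real.exp (-(c1 * Lam)) := by
        apply Real.exp_le_exp.2
        have : c1 * Lam ≤ 1 * Lam := mul_le_mul_of_nonneg_right hc1' hLampos.le
        linarith
      have h4 : Real.exp Lam0 * Real.exp (-Lam0) = 1 := by
        rw [← Real.exp_add, add_neg_cancel, Real.exp_zero]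
      have h5 : 0 < Real.exp (-(c1 * Lam)) := Real.exp_pos _
      have h6 := mul_le_mul_of_nonneg_left h3 (Real.exp_pos Lam0).le
      linarith
    calc T = 1 * T := (one_mul T).symm
      _ ≤ ((Real.exp Lam0 + 50) * D ^ (-c1)) * T := mul_le_mul_of_nonneg_right h2 hT0.le
      _ = _ := by ring
  -- main range
  have hbig1 : 16 * C1 * (1 + C2) ≤ Lam := by
    have : 0 < 1 / c1 := by positivity
    linarith
  have hbig2 : 1 ≤ c1 * Lam := by
    have h1 : 0 ≤ 16 * C1 * (1 + C2) := by positivity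
    have h2 : 1 / c1 ≤ Lam := by linarith
    rw [div_le_iff₀ hc1] at h2
    linarith
  obtain ⟨k, hkd⟩ : ∃ k : ℕ, k = ⌊c1 * Lam⌋₊ := ⟨_, rfl⟩
  have hk : (k : ℝ) ≤ c1 * Lam := by
    rw [hkd]
    exact Nat.floor_le (by positivity)
  have hk' : c1 * Lam < k + 1 := by
    rw [hkd]
    exact Nat.lt_floor_add_one _
  have hk1 : 1 ≤ k := by
    rw [hkd, Nat.one_le_floor_iff]
    exact hbig2
  have hk1r : (1 : ℝ) ≤ k := by exact_mod_cast hk1
  have hk0 : (0 : ℝ) < k := by linarith
  have hLamL : Lam ≤ L := by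
    have : h * L ≤ 1 * L := mul_le_mul_of_nonneg_right hh1 hL0.le
    linarith
  have hkL : (k : ℝ) ≤ c0 * L := by
    calc (k : ℝ) ≤ c1 * Lam := hk
      _ ≤ c0 * L := mul_le_mul hc1c0 hLamL hLampos.le hc0.le
  have hl0 : 0 < ell (1 / 4) T k := MkB.ell_pos (κ := 1 / 4) (by norm_num) hT10 hk1
  set l := ell (1 / 4) T k with hld
  have hw := W3_cont l hl0
  have hW : ∀ u ∈ Set.Icc 0 (Real.log T), ‖W3 l u‖ ≤ 2 := fun u _ => hw.2 u
  have hWl : ∀ u : ℝ, l ≤ u → W3 l u = 0 := fun u hu => by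
    rw [NoZero.W3_eq, NoZero.w3_zero hl0 hu, Complex.ofReal_zero]
  set V1 := T + L + 1 with hV1
  set V2 := 2 * T - L - 1 with hV2
  have hLsq : 8 * L ^ 2 ≤ T := by
    have h1 : L ≤ T ^ (1 / 4 : ℝ) / (1 / 4) := Real.log_le_rpow_div hT0.le (by norm_num)
    have h2 : L ^ 2 ≤ 16 * T ^ (1 / 2 : ℝ) := by
      calc L ^ 2 ≤ (T ^ (1 / 4 : ℝ) / (1 / 4)) ^ 2 := pow_le_pow_left₀ hL0.le h1 2
        _ = 16 * (T ^ (1 / 4 : ℝ) * T ^ (1 / 4 : ℝ)) := by ring
        _ = 16 * T ^ (1 / 2 : ℝ) := by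
            rw [← Real.rpow_add hT0]
            norm_num
    have h3 : 128 ≤ T ^ (1 / 2 : ℝ) := by
      have : (128 : ℝ) = ((128 : ℝ) ^ 2) ^ (1 / 2 : ℝ) := by
        rw [← Real.rpow_natCast, ← Real.rpow_mul (by norm_num)]
        norm_num
      rw [this]
      apply Real.rpow_le_rpow (by norm_num) _ (by norm_num)
      linarith
    have h4 : T ^ (1 / 2 : ℝ) * T ^ (1 / 2 : ℝ) = T := by
      rw [← Real.rpow_add hT0]
      norm_num
    have h5 : 128 * T ^ (1 / 2 : ℝ) ≤ T ^ (1 / 2 : ℝ) * T ^ (1 / 2 : ℝ) :=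
      mul_le_mul_of_nonneg_right h3 (by positivity)
    linarith
  have hL1 : 1 ≤ L := by
    rw [hLd, Real.le_log_iff_exp_le hT0]
    have : Real.exp 1 < 3 := Real.exp_one_lt_d9.trans (by norm_num)
    linarith
  have hV : V1 ≤ V2 := by
    have : L ≤ L ^ 2 := by
      rw [sq]
      exact le_mul_of_one_le_left hL0.le hL1
    rw [hV1, hV2]
    linarith
  -- exceptional functions
  set f1 : ℝ → ℝ := fun t => ‖A1 T h D l (W3 l) t‖ ^ (2 * k) with hf1
  set f2 : ℝ → ℝ := fun t => ‖A2 T h D l (W3 l) t‖ ^ (2 * k) with hf2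
  set F : ℝ → ℝ := fun t => (‖Q1 (1 / 4) T k t‖ / B) ^ (2 * k) with hF
  have hFc : Continuous F := ((CTAux.Q1_cont (1 / 4) T k).norm.div_const B).pow _
  have hf1c : Continuous f1 := by
    apply Continuous.pow
    apply Continuous.norm
    unfold A1
    apply continuous_finsetSum
    intro p hp
    have hp0 : (p : ℂ) ≠ 0 := by exact_mod_cast (mem_PP.1 hp).1.ne_zero
    apply Continuous.mul continuous_const
    apply Continuous.const_cpow
    · fun_prop
    · exact Or.inl hp0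
  have hf2c : Continuous f2 := by
    apply Continuous.pow
    apply Continuous.norm
    unfold A2
    apply continuous_finsetSum
    intro p hp
    have hp0 : ((p ^ 2 : ℕ) : ℂ) ≠ 0 := by
      exact_mod_cast pow_ne_zero 2 (mem_PP.1 hp).1.ne_zero
    apply Continuous.mul continuous_const
    apply Continuous.const_cpow
    · fun_prop
    · exact Or.inl hp0
  obtain ⟨hI1, hI2⟩ := HA T hT3 k h D hk1 hh hD1 (W3 l) hW V1 V2 (by linarith) hV (by linarith)
  -- measure of the exceptional sets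
  have hlogD : 1 + Real.log (1 + D) ≤ 4 * Lam := by
    have h1 : Real.log (1 + D) ≤ Real.log (2 * D) := Real.log_le_log (by linarith) (by linarith)
    rw [Real.log_mul (by norm_num) hD0.ne'] at h1
    have := Real.log_two_lt_d9
    linarith
  have hlogD0 : 0 ≤ 1 + Real.log (1 + D) := by
    have : 0 ≤ Real.log (1 + D) := Real.log_nonneg (by linarith)
    linarith
  have hthL : 0 < th * Lam := by positivity
  have hr1 : CA * k * (1 + Real.log (1 + D)) / (th * Lam) ^ 2 ≤ 1 / 3 := by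
    rw [div_le_iff₀ (by positivity)]
    have h1 : CA * k * (1 + Real.log (1 + D)) ≤ CA * (c1 * Lam) * (4 * Lam) := by
      apply mul_le_mul _ hlogD hlogD0 (by positivity)
      exact mul_le_mul_of_nonneg_left hk (by linarith)
    have h2 : CA * c1 ≤ th ^ 2 / 12 := by
      calc CA * c1 ≤ CA * (th ^ 2 / (12 * CA)) := mul_le_mul_of_nonneg_left hc13 (by linarith)
        _ = th ^ 2 / 12 := by
            have : CA ≠ 0 := by linarith
            field_simp
    have h3 : CA * (c1 * Lam) * (4 * Lam) = (CA * c1) * (4 * Lam ^ 2) := by ring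
    rw [h3] at h1
    have h4 := mul_le_mul_of_nonneg_right h2 (by positivity : 0 ≤ 4 * Lam ^ 2)
    calc _ ≤ _ := h1
      _ ≤ _ := h4
      _ = _ := by ring
  have hr2 : CA * k / (th * Lam) ^ 2 ≤ 1 / 3 := by
    refine le_trans ?_ hr1
    apply div_le_div_of_nonneg_right _ (by positivity)
    apply le_mul_of_one_le_right (by positivity)
    have : 0 ≤ Real.log (1 + D) := Real.log_nonneg (by linarith)
    linarith
  have hpow : (th * Lam) ^ (2 * k) = ((th * Lam) ^ 2) ^ k := by rw [pow_mul]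
  have hm1 : volume.real ({t | (th * Lam) ^ (2 * k) ≤ f1 t} ∩ Set.Icc V1 V2) ≤
      4 * T * Real.exp (-k) := by
    refine (markov hf1c (fun t => by positivity) hV (by positivity)).trans ?_
    calc (∫ t in V1..V2, f1 t) / (th * Lam) ^ (2 * k)
        ≤ (4 * T * (CA * k * (1 + Real.log (1 + D))) ^ k) / (th * Lam) ^ (2 * k) :=
          div_le_div_of_nonneg_right hI1 (by positivity)
      _ = 4 * T * (CA * k * (1 + Real.log (1 + D)) / (th * Lam) ^ 2) ^ k := by
          rw [hpow, div_pow]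
          ring
      _ ≤ 4 * T * Real.exp (-k) := by
          apply mul_le_mul_of_nonneg_left _ (by positivity)
          exact pow_third (by positivity) hr1 k
  have hm2 : volume.real ({t | (th * Lam) ^ (2 * k) ≤ f2 t} ∩ Set.Icc V1 V2) ≤
      4 * T * Real.exp (-k) := by
    refine (markov hf2c (fun t => by positivity) hV (by positivity)).trans ?_
    calc (∫ t in V1..V2, f2 t) / (th * Lam) ^ (2 * k)
        ≤ (4 * T * (CA * k) ^ k) / (th * Lam) ^ (2 * k) :=
          div_le_div_of_nonneg_right hI2 (by positivity)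
      _ = 4 * T * (CA * k / (th * Lam) ^ 2) ^ k := by
          rw [hpow, div_pow]
          ring
      _ ≤ 4 * T * Real.exp (-k) := by
          apply mul_le_mul_of_nonneg_left _ (by positivity)
          exact pow_third (by positivity) hr2 k
  have hFint : ∀ U1 U2 : ℝ, T ≤ U1 → U1 ≤ U2 → U2 ≤ 2 * T → ∫ t in U1..U2, F t ≤
      6 * T * Real.exp (-k) := by
    intro U1 U2 hU1 hU hU2
    have h1 := HQ T hT5 k hk1 U1 U2 hU1 hU hU2
    have h2 : ∫ t in U1..U2, F t = (∫ t in U1..U2, ‖Q1 (1 / 4) T k t‖ ^ (2 * k)) / B ^ (2 * k) := by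
      rw [← intervalIntegral.integral_div]
      refine intervalIntegral.integral_congr fun t _ => ?_
      show (‖Q1 (1 / 4) T k t‖ / B) ^ (2 * k) = _
      rw [div_pow]
    rw [h2]
    calc _ ≤ (6 * T * (CQ / k) ^ k) / B ^ (2 * k) := div_le_div_of_nonneg_right h1 (by positivity)
      _ = 6 * T * (CQ / k / B ^ 2) ^ k := by
          rw [pow_mul, div_pow (CQ / k)]
          ring
      _ ≤ 6 * T * Real.exp (-k) := by
          apply mul_le_mul_of_nonneg_left _ (by positivity)
          apply pow_third (by positivity)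
          rw [div_div, div_le_div_iff₀ (by positivity) (by norm_num)]
          rw [hB]
          have h3 : (1 : ℝ) * (3 * (1 + CQ)) ^ 2 ≤ k * (3 * (1 + CQ)) ^ 2 :=
            mul_le_mul_of_nonneg_right hk1r (by positivity)
          have h4 : CQ * 3 ≤ (3 * (1 + CQ)) ^ 2 := by
            have e : (3 * (1 + CQ)) ^ 2 = 9 + 18 * CQ + 9 * CQ ^ 2 := by ring
            rw [e]
            have h5 : 0 ≤ CQ ^ 2 := by positivity
            linarith only [h5, hCQ]
          linarith
  have hm3 : volume.real ({t | 4 / h ≤ RR F h D t} ∩ Set.Icc V1 V2) ≤ 6 * T * Real.exp (-k) := by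
    have hR0 : ∀ t, 0 ≤ RR F h D t := by
      intro t
      have a1 : ∀ x, 0 ≤ F x := fun x => by positivity
      have a2 : 0 ≤ ∫ x in h..(h * D), (F (t + x) + F (t - x)) / x ^ 2 :=
        intervalIntegral.integral_nonneg (le_mul_of_one_le_right hh.le hD1) fun x _ => by
          have := a1 (t + x)
          have := a1 (t - x)
          positivity
      unfold RR
      have := a1 (t + h * D)
      have := a1 (t - h * D)
      have := a1 (t + h)
      have := a1 (t - h)
      have hb : 0 < h * D := by positivity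
      positivity
    refine (markov (RR_cont hFc hh hD1) hR0 hV (by positivity)).trans ?_
    have h1 := RR_int hFc hh hD1 hV (V := T) (by linarith) (by linarith) hFint
    calc (∫ t in V1..V2, RR F h D t) / (4 / h) ≤ (4 * (6 * T * Real.exp (-k)) / h) / (4 / h) :=
          div_le_div_of_nonneg_right h1 (by positivity)
      _ = 6 * T * Real.exp (-k) := by field_simp
  -- inclusion
  have hincl : {t | t ∈ Set.Icc T (2 * T) ∧
      Lam / 4 ≤ |NL T h D t - L * (h * D - h) / Real.pi|} ⊆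
      (Set.Icc T V1 ∪ Set.Icc V2 (2 * T)) ∪
      (({t | (th * Lam) ^ (2 * k) ≤ f1 t} ∩ Set.Icc V1 V2) ∪
      (({t | (th * Lam) ^ (2 * k) ≤ f2 t} ∩ Set.Icc V1 V2) ∪
      ({t | 4 / h ≤ RR F h D t} ∩ Set.Icc V1 V2))) := by
    intro t ht
    obtain ⟨ht1, ht2⟩ := ht
    by_cases hta : t ∈ Set.Icc T V1 ∪ Set.Icc V2 (2 * T)
    · exact Or.inl hta
    right
    have htV : t ∈ Set.Icc V1 V2 := by
      rw [Set.mem_union, not_or] at hta
      constructor
      · by_contra hcon
        exact hta.1 ⟨ht1.1, (not_le.1 hcon).le⟩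
      · by_contra hcon
        exact hta.2 ⟨(not_le.1 hcon).le, ht1.2⟩
    by_contra hcon
    rw [Set.mem_union, Set.mem_union, not_or, not_or] at hcon
    obtain ⟨n1, n2, n3⟩ := hcon
    have m1 : ‖A1 T h D l (W3 l) t‖ ≤ th * Lam := by
      by_contra h1
      push Not at h1
      exact n1 ⟨pow_le_pow_left₀ hthL.le h1.le _, htV⟩
    have m2 : ‖A2 T h D l (W3 l) t‖ ≤ th * Lam := by
      by_contra h1
      push Not at h1
      exact n2 ⟨pow_le_pow_left₀ hthL.le h1.le _, htV⟩
    have m3 : RR F h D t ≤ 4 / h := by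
      by_contra h1
      push Not at h1
      exact n3 ⟨h1.le, htV⟩
    have g1 := Hlog T hT2 t h D hh hD1 (by linarith [htV.1]) (by linarith [htV.2]) k hk1 hkL
    have g2 := HPI T hT1' t h D l hh hD1 hl0 (W3 l) hW hWl
    have g3 : ‖PI T h D (W3 l) t‖ ≤ C2 * (h * D - h) + ‖A1 T h D l (W3 l) t‖ +
        ‖A2 T h D l (W3 l) t‖ := by
      have h1 : PI T h D (W3 l) t = (PI T h D (W3 l) t - (A1 T h D l (W3 l) t +
          A2 T h D l (W3 l) t)) + (A1 T h D l (W3 l) t + A2 T h D l (W3 l) t) := by ring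
      rw [h1]
      refine (norm_add_le _ _).trans ?_
      have h2 := norm_add_le (A1 T h D l (W3 l) t) (A2 T h D l (W3 l) t)
      linarith
    have g4 : ME T k h D t ≤ 12 * CM * k * B / h := by
      rw [ME_eq]
      have h1 := RR_le (F := SP.Mk T k) (G := F) (Mk_cont hT1' k) hFc (t := t)
        (a := CM * k * (2 * B)) (b := CM * k * B) hh hD1 (by
          intro s hs
          have h2 := HM T hT4 s (by linarith [htV.1, hs.1]) (by linarith [htV.2, hs.2]) k hk1
          have h3 := q_split (norm_nonneg (Q1 (1 / 4) T k s)) hB1 hk1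
          calc SP.Mk T k s ≤ CM * k * (1 + ‖Q1 (1 / 4) T k s‖) := h2
            _ ≤ CM * k * (2 * B + B * (‖Q1 (1 / 4) T k s‖ / B) ^ (2 * k)) :=
                mul_le_mul_of_nonneg_left h3 (by positivity)
            _ = _ := by ring)
      refine h1.trans ?_
      have h4 := mul_le_mul_of_nonneg_left m3 (by positivity : 0 ≤ CM * k * B)
      have h5 : 12 * CM * k * B / h = 4 * (CM * k * (2 * B)) / h + CM * k * B * (4 / h) := by ring
      rw [h5]
      linarith
    have g6 := pointwise hc (X := |NL T h D t - L * (h * D - h) / Real.pi|)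
      (a1 := ‖A1 T h D l (W3 l) t‖) (a2 := ‖A2 T h D l (W3 l) t‖) (me := ME T k h D t)
      hL0 hh hhD hD1 hLampos hLh hbig1 hk (by
        refine g1.trans ?_
        apply mul_le_mul_of_nonneg_left _ hC1.le
        linarith) m1 m2 g4
    linarith
  have hfin := measureReal_mono hincl (by
    have h1 : ∀ S : Set ℝ, volume (S ∩ Set.Icc V1 V2) ≠ ⊤ := fun S =>
      ((measure_mono Set.inter_subset_right).trans_lt measure_Icc_lt_top).ne
    have h2 : ∀ S1 S2 : Set ℝ, volume S1 ≠ ⊤ → volume S2 ≠ ⊤ → volume (S1 ∪ S2) ≠ ⊤ := by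
      intro S1 S2 a b
      exact ((measure_union_le _ _).trans_lt (ENNReal.add_lt_top.2 ⟨a.lt_top, b.lt_top⟩)).ne
    exact h2 _ _ (h2 _ _ measure_Icc_lt_top.ne measure_Icc_lt_top.ne)
      (h2 _ _ (h1 _) (h2 _ _ (h1 _) (h1 _))))
  refine hfin.trans ?_
  have u1 := measureReal_union_le (μ := volume) (Set.Icc T V1 ∪ Set.Icc V2 (2 * T))
    (({t | (th * Lam) ^ (2 * k) ≤ f1 t} ∩ Set.Icc V1 V2) ∪
      (({t | (th * Lam) ^ (2 * k) ≤ f2 t} ∩ Set.Icc V1 V2) ∪
      ({t | 4 / h ≤ RR F h D t} ∩ Set.Icc V1 V2)))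
  have u2 := measureReal_union_le (μ := volume) (Set.Icc T V1) (Set.Icc V2 (2 * T))
  have u3 := measureReal_union_le (μ := volume)
    ({t | (th * Lam) ^ (2 * k) ≤ f1 t} ∩ Set.Icc V1 V2)
    (({t | (th * Lam) ^ (2 * k) ≤ f2 t} ∩ Set.Icc V1 V2) ∪
      ({t | 4 / h ≤ RR F h D t} ∩ Set.Icc V1 V2))
  have u4 := measureReal_union_le (μ := volume)
    ({t | (th * Lam) ^ (2 * k) ≤ f2 t} ∩ Set.Icc V1 V2)
    ({t | 4 / h ≤ RR F h D t} ∩ Set.Icc V1 V2)
  rw [Real.volume_real_Icc_of_le (by linarith : T ≤ V1),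
    Real.volume_real_Icc_of_le (by linarith : V2 ≤ 2 * T)] at u2
  have hek : Real.exp (-k) ≤ 3 * D ^ (-c1) := by
    rw [hDc]
    have h1 : Real.exp (-(k : ℝ)) ≤ Real.exp (1 + -(c1 * Lam)) := by
      apply Real.exp_le_exp.2
      linarith
    rw [Real.exp_add] at h1
    have h2 : Real.exp 1 < 3 := Real.exp_one_lt_d9.trans (by norm_num)
    have h3 : 0 < Real.exp (-(c1 * Lam)) := Real.exp_pos _
    exact h1.trans (mul_le_mul_of_nonneg_right h2.le h3.le)
  have hedge : 4 * L ≤ T * D ^ (-c1) := by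
    have h1 : D ^ (-1 : ℝ) ≤ D ^ (-c1) := Real.rpow_le_rpow_of_exponent_le hD1 (by linarith)
    rw [Real.rpow_neg_one] at h1
    have h2 : 1 / (2 * L) ≤ D⁻¹ := by
      rw [← one_div, div_le_div_iff₀ (by positivity) hD0]
      have h3 : D * Lam ≤ L := by
        have h4 : D * Lam ≤ D * (h * L) := mul_le_mul_of_nonneg_left hLh hD0.le
        have h5 : D * (h * L) = (h * D) * L := by ring
        have h6 : (h * D) * L ≤ 1 * L := mul_le_mul_of_nonneg_right hhD hL0.le
        linarith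
      have h4 : D * (1 / 2) ≤ D * Lam := mul_le_mul_of_nonneg_left (by linarith) hD0.le
      linarith
    have h3 : T * (1 / (2 * L)) ≤ T * D ^ (-c1) :=
      mul_le_mul_of_nonneg_left (h2.trans h1) hT0.le
    refine le_trans ?_ h3
    rw [mul_one_div, le_div_iff₀ (by positivity)]
    calc 4 * L * (2 * L) = 8 * L ^ 2 := by ring
      _ ≤ T := hLsq
  have hDpos : 0 < D ^ (-c1) := Real.rpow_pos_of_pos hD0 _
  have hTD : 0 < T * D ^ (-c1) := by positivity
  have hfin2 : (14 : ℝ) * T * Real.exp (-k) ≤ 42 * (T * D ^ (-c1)) := by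
    have := mul_le_mul_of_nonneg_left hek (by positivity : 0 ≤ 14 * T)
    linarith
  have hE0 : 0 ≤ Real.exp Lam0 * (T * D ^ (-c1)) := by positivity
  have e1 : (Real.exp Lam0 + 50) * T * D ^ (-c1) = Real.exp Lam0 * (T * D ^ (-c1)) +
      50 * (T * D ^ (-c1)) := by ring
  rw [e1]
  have e2 : V1 - T + (2 * T - V2) = 2 * L + 2 := by rw [hV1, hV2]; ring
  linarith

end Num
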