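import Pool.Agent.W197.Rig.K

/-! # Second antiderivative of the kernel; logarithmic windows -/

open Complex Filter Topology Set MeasureTheory

namespace Num

open LG.NoZero Rig

/-- mass of the kernel -/
noncomputable def MM (l : ℝ) : ℝ := Real.sqrt (2 * Real.pi) * GG3 l

/-- first moment on the half line -/
noncomputable def mu1 (l : ℝ) : ℝ := ∫ v in Ioi (0 : ℝ), v * kg l v

/-- second antiderivative of the kernel -/
noncomputable def F2 (l a : ℝ) : ℝ := ∫ v in (0 : ℝ)..a, (a - v) * kg l v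

/-- the decaying second antiderivative -/
noncomputable def T2 (l a : ℝ) : ℝ := F2 l a - |a| * MM l / 2 + mu1 l

theorem kap_neg (l v : ℝ) : kap l (-v) = kap l v := by
  unfold kap
  refine intervalIntegral.integral_congr fun u _ => ?_
  show w3 l u * Real.cos (u * -v) = w3 l u * Real.cos (u * v)
  rw [mul_neg, Real.cos_neg]

theorem kg_neg (l v : ℝ) : kg l (-v) = kg l v := by
  unfold kg
  rw [kap_neg, neg_sq]

theorem half_mass {l : ℝ} (hl : 0 < l) : ∫ v in Ioi (0 : ℝ), kg l v = MM l / 2 := by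
  have h1 := kg_mass hl
  have hi := kg_integrable hl
  have h2 : ∫ v in Iic (0 : ℝ), kg l v = ∫ v in Ioi (0 : ℝ), kg l v := by
    have h3 := integral_comp_neg_Iic (0 : ℝ) (kg l)
    simp only [kg_neg, neg_zero] at h3
    exact h3
  have h4 : (∫ v in Iic (0 : ℝ), kg l v) + ∫ v in Ioi (0 : ℝ), kg l v = ∫ v, kg l v :=
    intervalIntegral.integral_Iic_add_Ioi hi.integrableOn hi.integrableOn
  rw [h2, h1] at h4
  unfold MM
  linarith

/-- bound for `v * kernel` -/
theorem vkg_abs {l : ℝ} (hl : 0 < l) (a v : ℝ) (ha : 0 ≤ a) (hv : a ≤ v) :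
    |v * kg l v| ≤ Real.exp (-a ^ 2 / 2) * (16400 * (l * v / (1 + (l * v) ^ 2) ^ 2)) := by
  have hv0 : 0 ≤ v := ha.trans hv
  unfold kg
  rw [abs_mul, abs_mul, abs_of_nonneg hv0, abs_of_pos (Real.exp_pos _)]
  have h1 := kap_decay hl v
  have h2 : Real.exp (-v ^ 2 / 2) ≤ Real.exp (-a ^ 2 / 2) := by
    apply Real.exp_le_exp.2
    nlinarith
  calc v * (Real.exp (-v ^ 2 / 2) * |kap l v|)
      ≤ v * (Real.exp (-a ^ 2 / 2) * (16400 * l / (1 + (l * v) ^ 2) ^ 2)) := by
        apply mul_le_mul_of_nonneg_left _ hv0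
        exact mul_le_mul h2 h1 (abs_nonneg _) (Real.exp_pos _).le
    _ = _ := by ring

theorem lor2 {l : ℝ} (hl : 0 < l) (a : ℝ) (ha : 0 ≤ a) :
    IntegrableOn (fun v : ℝ => l * v / (1 + (l * v) ^ 2) ^ 2) (Ioi a) ∧
    ∫ v in Ioi a, l * v / (1 + (l * v) ^ 2) ^ 2 = 1 / (2 * l * (1 + (l * a) ^ 2)) := by
  have hd : ∀ x ∈ Ici a, HasDerivAt (fun v : ℝ => -(1 / (2 * l * (1 + (l * v) ^ 2))))
      (l * x / (1 + (l * x) ^ 2) ^ 2) x := by
    intro x _
    have h1 : HasDerivAt (fun v : ℝ => 2 * l * (1 + (l * v) ^ 2)) (2 * l * (2 * (l * x) * l)) x := by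
      have h2 : HasDerivAt (fun v : ℝ => l * v) l x := by
        simpa using (hasDerivAt_id x).const_mul l
      have h3 := ((h2.pow 2).const_add 1).const_mul (2 * l)
      refine h3.congr_deriv ?_
      norm_num
    have hne : 2 * l * (1 + (l * x) ^ 2) ≠ 0 := by positivity
    have h4 := (h1.inv hne).neg
    simp only [one_div]
    refine h4.congr_deriv ?_
    have hne2 : 1 + (l * x) ^ 2 ≠ 0 := by positivity
    field_simp
  have hpos : ∀ x ∈ Ioi a, 0 ≤ l * x / (1 + (l * x) ^ 2) ^ 2 := by
    intro x hx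
    have : 0 ≤ x := ha.trans (le_of_lt hx)
    positivity
  have htend : Tendsto (fun v : ℝ => -(1 / (2 * l * (1 + (l * v) ^ 2)))) atTop (𝓝 0) := by
    rw [← neg_zero]
    apply Tendsto.neg
    have h1 : Tendsto (fun v : ℝ => 2 * l * (1 + (l * v) ^ 2)) atTop atTop := by
      apply Tendsto.const_mul_atTop (by positivity)
      apply tendsto_atTop_add_const_left
      apply (tendsto_pow_atTop (by norm_num : (2 : ℕ) ≠ 0)).comp
      exact tendsto_id.const_mul_atTop hl
    simp only [one_div]
    exact h1.inv_tendsto_atTop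
  refine ⟨integrableOn_Ioi_deriv_of_nonneg' hd hpos htend, ?_⟩
  rw [integral_Ioi_of_hasDerivAt_of_nonneg' hd hpos htend]
  ring

theorem vkg_int {l : ℝ} (hl : 0 < l) (a : ℝ) (ha : 0 ≤ a) :
    IntegrableOn (fun v : ℝ => v * kg l v) (Ioi a) := by
  have h1 := ((lor2 hl a ha).1.const_mul 16400).const_mul (Real.exp (-a ^ 2 / 2))
  refine Integrable.mono' h1 ?_ ?_
  · exact (continuous_id.mul (kg_cont hl)).aestronglyMeasurable
  · refine (ae_restrict_iff' measurableSet_Ioi).2 (Eventually.of_forall fun v hv => ?_)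
    rw [Real.norm_eq_abs]
    exact vkg_abs hl a v ha (le_of_lt hv)

theorem F2_neg (l a : ℝ) : F2 l (-a) = F2 l a := by
  unfold F2
  have h := intervalIntegral.integral_comp_neg (a := 0) (b := a) (fun v => (-a - v) * kg l v)
  rw [neg_zero] at h
  rw [intervalIntegral.integral_symm, ← h, ← intervalIntegral.integral_neg]
  refine intervalIntegral.integral_congr fun v _ => ?_
  show -((-a - -v) * kg l (-v)) = (a - v) * kg l v
  rw [kg_neg]
  ring

theorem T2_neg (l a : ℝ) : T2 l (-a) = T2 l a := by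
  unfold T2
  rw [F2_neg, abs_neg]

theorem T2_abs (l a : ℝ) : T2 l |a| = T2 l a := by
  rcases abs_choice a with h | h
  · rw [h]
  · rw [h, T2_neg]

theorem T2_eq {l : ℝ} (hl : 0 < l) (a : ℝ) (ha : 0 ≤ a) :
    T2 l a = ∫ v in Ioi a, (v - a) * kg l v := by
  have hi := kg_integrable hl
  have hv0 := vkg_int hl 0 le_rfl
  have hva := vkg_int hl a ha
  have hc := kg_cont hl
  have h1 : ∫ v in Ioi a, (v - a) * kg l v = (∫ v in Ioi a, v * kg l v) -
      a * ∫ v in Ioi a, kg l v := by
    rw [← integral_const_mul, ← integral_sub hva (hi.integrableOn.const_mul a)]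
    refine integral_congr_ae (Eventually.of_forall fun v => ?_)
    show (v - a) * kg l v = v * kg l v - a * kg l v
    ring
  have h2 : (∫ v in (0 : ℝ)..a, kg l v) + ∫ v in Ioi a, kg l v = MM l / 2 := by
    rw [← half_mass hl]
    exact intervalIntegral.integral_interval_add_Ioi hi.integrableOn hi.integrableOn
  have h3 : (∫ v in (0 : ℝ)..a, v * kg l v) + ∫ v in Ioi a, v * kg l v = mu1 l :=
    intervalIntegral.integral_interval_add_Ioi hv0 hva
  have h4 : F2 l a = a * (∫ v in (0 : ℝ)..a, kg l v) - ∫ v in (0 : ℝ)..a, v * kg l v := by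
    unfold F2
    rw [← intervalIntegral.integral_const_mul, ← intervalIntegral.integral_sub]
    · refine intervalIntegral.integral_congr fun v _ => ?_
      show (a - v) * kg l v = a * kg l v - v * kg l v
      ring
    · apply Continuous.intervalIntegrable; fun_prop
    · apply Continuous.intervalIntegrable; fun_prop
  unfold T2
  rw [abs_of_nonneg ha, h1, h4, ← h3]
  have : MM l = 2 * ((∫ v in (0 : ℝ)..a, kg l v) + ∫ v in Ioi a, kg l v) := by linarith
  rw [this]
  ring

theorem T2_bound {l : ℝ} (hl : 0 < l) (a : ℝ) : |T2 l a| ≤ 8200 / l * EE l a := by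
  rw [← T2_abs, ← EE_abs]
  have ha := abs_nonneg a
  set b := |a| with hb
  rw [T2_eq hl b ha]
  have h0 := lor2 hl b ha
  have h1 : ‖∫ v in Ioi b, (v - b) * kg l v‖ ≤
      ∫ v in Ioi b, Real.exp (-b ^ 2 / 2) * (16400 * (l * v / (1 + (l * v) ^ 2) ^ 2)) := by
    apply norm_integral_le_of_norm_le
    · exact (h0.1.const_mul _).const_mul _
    · refine (ae_restrict_iff' measurableSet_Ioi).2 (Eventually.of_forall fun v hv => ?_)
      have hv : b < v := hv
      rw [Real.norm_eq_abs]
      refine le_trans ?_ (vkg_abs hl b v ha hv.le)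
      rw [abs_mul, abs_mul]
      apply mul_le_mul_of_nonneg_right _ (abs_nonneg _)
      rw [abs_of_pos (by linarith), abs_of_pos (by linarith)]
      linarith
  rw [Real.norm_eq_abs, integral_const_mul, integral_const_mul, h0.2] at h1
  refine h1.trans (le_of_eq ?_)
  unfold EE
  field_simp
  ring

/-- first antiderivative -/
theorem F2_deriv {l : ℝ} (hl : 0 < l) (a : ℝ) :
    HasDerivAt (F2 l) (∫ v in (0 : ℝ)..a, kg l v) a := by
  have hc := kg_cont hl
  have e : F2 l = fun a => a * (∫ v in (0 : ℝ)..a, kg l v) - ∫ v in (0 : ℝ)..a, v * kg l v := by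
    funext a
    unfold F2
    rw [← intervalIntegral.integral_const_mul, ← intervalIntegral.integral_sub]
    · refine intervalIntegral.integral_congr fun v _ => ?_
      show (a - v) * kg l v = a * kg l v - v * kg l v
      ring
    · apply Continuous.intervalIntegrable; fun_prop
    · apply Continuous.intervalIntegrable; fun_prop
  rw [e]
  have h1 : HasDerivAt (fun a => ∫ v in (0 : ℝ)..a, kg l v) (kg l a) a :=
    intervalIntegral.integral_hasDerivAt_right (hc.intervalIntegrable _ _)
      (hc.stronglyMeasurableAtFilter _ _) hc.continuousAt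
  have hc2 : Continuous fun v : ℝ => v * kg l v := by fun_prop
  have h2 : HasDerivAt (fun a => ∫ v in (0 : ℝ)..a, v * kg l v) (a * kg l a) a :=
    intervalIntegral.integral_hasDerivAt_right (hc2.intervalIntegrable _ _)
      (hc2.stronglyMeasurableAtFilter _ _) hc2.continuousAt
  have h3 := ((hasDerivAt_id a).mul h1).sub h2
  refine h3.congr_deriv ?_
  simp

end Num
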