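import Pool.Agent.W197.Num.K

/-! # Logarithmic window -/

open Complex Filter Topology Set MeasureTheory

namespace Num

open LG.NoZero Rig

/-- the logarithmic window: `log D` on `[-h, h]`, `log (hD/|u|)` for `h < |u| ≤ h D`, `0` beyond -/
noncomputable def Lg (h D u : ℝ) : ℝ :=
  if |u| ≤ h then Real.log D else if |u| ≤ h * D then Real.log (h * D / |u|) else 0

/-- the smoothed logarithmic window -/
noncomputable def Ker (l h D u : ℝ) : ℝ :=
  ∫ x in h..(h * D), (∫ v in (u - x)..(u + x), kg l v) / x

theorem parts {G G' : ℝ → ℝ} {a b : ℝ} (ha : 0 < a) (hab : a ≤ b)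
    (hG : ∀ x ∈ Icc a b, HasDerivAt G (G' x) x) (hc : Continuous G') :
    ∫ x in a..b, G' x / x = G b / b - G a / a + ∫ x in a..b, G x / x ^ 2 := by
  have hu : uIcc a b = Icc a b := uIcc_of_le hab
  have hpos : ∀ x ∈ uIcc a b, x ≠ 0 := by
    intro x hx
    rw [hu] at hx
    have := hx.1
    intro h0
    linarith
  have hd : ∀ x ∈ uIcc a b, HasDerivAt (fun x => G x / x) (G' x / x - G x / x ^ 2) x := by
    intro x hx
    have hx0 := hpos x hx
    rw [hu] at hx
    have h1 := (hG x hx).div (hasDerivAt_id x) hx0
    refine h1.congr_deriv ?_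
    simp only [id]
    field_simp
  have hGc : ContinuousOn G (uIcc a b) := by
    intro x hx
    rw [hu] at hx
    exact (hG x hx).continuousAt.continuousWithinAt
  have hi1 : IntervalIntegrable (fun x => G' x / x) volume a b := by
    apply ContinuousOn.intervalIntegrable
    exact hc.continuousOn.div continuousOn_id hpos
  have hi2 : IntervalIntegrable (fun x => G x / x ^ 2) volume a b := by
    apply ContinuousOn.intervalIntegrable
    exact hGc.div (continuousOn_id.pow 2) (fun x hx => pow_ne_zero 2 (hpos x hx))
  have h2 := intervalIntegral.integral_eq_sub_of_hasDerivAt hd (hi1.sub hi2)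
  rw [intervalIntegral.integral_sub hi1 hi2] at h2
  linarith

theorem inv_sq_int {a b : ℝ} (ha : 0 < a) (hab : a ≤ b) (c : ℝ) :
    ∫ x in a..b, c / x ^ 2 = c / a - c / b := by
  have hpos : ∀ x ∈ uIcc a b, x ≠ 0 := by
    intro x hx
    rw [uIcc_of_le hab] at hx
    have := hx.1
    intro h0
    linarith
  have hd : ∀ x ∈ uIcc a b, HasDerivAt (fun x : ℝ => -(c / x)) (c / x ^ 2) x := by
    intro x hx
    have hx0 := hpos x hx
    have h1 := ((hasDerivAt_const x c).div (hasDerivAt_id x) hx0).neg
    refine h1.congr_deriv ?_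
    simp only [id]
    field_simp
    ring
  rw [intervalIntegral.integral_eq_sub_of_hasDerivAt hd]
  · ring
  · apply ContinuousOn.intervalIntegrable
    exact continuousOn_const.div (continuousOn_id.pow 2) (fun x hx => pow_ne_zero 2 (hpos x hx))

theorem one_div_int {a b : ℝ} (ha : 0 < a) (hab : a ≤ b) :
    ∫ x in a..b, x / x ^ 2 = Real.log b - Real.log a := by
  have hb : 0 < b := by linarith
  have h1 : ∫ x in a..b, x / x ^ 2 = ∫ x in a..b, 1 / x := by
    refine intervalIntegral.integral_congr fun x hx => ?_
    rw [uIcc_of_le hab] at hx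
    have hx0 : x ≠ 0 := by
      have := hx.1
      intro h0
      linarith
    show x / x ^ 2 = 1 / x
    field_simp
  rw [h1, integral_one_div_of_pos ha hb, Real.log_div hb.ne' ha.ne']

/-- the window is the integral transform of `max x |u|` -/
theorem Lg_eq {h D : ℝ} (hh : 0 < h) (hD : 1 ≤ D) (u : ℝ) :
    Lg h D u = max (h * D) |u| / (h * D) - max h |u| / h + ∫ x in h..(h * D), max x |u| / x ^ 2 := by
  have hhD : h ≤ h * D := le_mul_of_one_le_right hh.le hD
  have hD0 : 0 < D := by linarith
  have hb : 0 < h * D := by positivity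
  unfold Lg
  by_cases h1 : |u| ≤ h
  · rw [if_pos h1, max_eq_left h1, max_eq_left (h1.trans hhD)]
    have h2 : ∫ x in h..(h * D), max x |u| / x ^ 2 = ∫ x in h..(h * D), x / x ^ 2 := by
      refine intervalIntegral.integral_congr fun x hx => ?_
      rw [uIcc_of_le hhD] at hx
      show max x |u| / x ^ 2 = x / x ^ 2
      rw [max_eq_left (h1.trans hx.1)]
    rw [h2, one_div_int hh hhD, Real.log_mul hh.ne' hD0.ne']
    field_simp
    ring
  · push Not at h1
    rw [if_neg (not_le.2 h1), max_eq_right h1.le]
    have hu0 : 0 < |u| := hh.trans h1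
    by_cases h2 : |u| ≤ h * D
    · rw [if_pos h2, max_eq_left h2]
      have hcont : ∀ a b : ℝ, 0 < a → a ≤ b →
          IntervalIntegrable (fun x => max x |u| / x ^ 2) volume a b := by
        intro a b ha hab
        apply ContinuousOn.intervalIntegrable
        apply ContinuousOn.div
        · exact (continuous_id.max continuous_const).continuousOn
        · exact (continuous_id.pow 2).continuousOn
        · intro x hx
          rw [uIcc_of_le hab] at hx
          have : 0 < x := ha.trans_le hx.1
          exact pow_ne_zero 2 this.ne'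
      rw [← intervalIntegral.integral_add_adjacent_intervals (hcont h |u| hh h1.le)
        (hcont |u| (h * D) hu0 h2)]
      have h3 : ∫ x in h..|u|, max x |u| / x ^ 2 = ∫ x in h..|u|, |u| / x ^ 2 := by
        refine intervalIntegral.integral_congr fun x hx => ?_
        rw [uIcc_of_le h1.le] at hx
        show max x |u| / x ^ 2 = |u| / x ^ 2
        rw [max_eq_right hx.2]
      have h4 : ∫ x in |u|..(h * D), max x |u| / x ^ 2 = ∫ x in |u|..(h * D), x / x ^ 2 := by
        refine intervalIntegral.integral_congr fun x hx => ?_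
        rw [uIcc_of_le h2] at hx
        show max x |u| / x ^ 2 = x / x ^ 2
        rw [max_eq_left hx.1]
      rw [h3, h4, inv_sq_int hh h1.le, one_div_int hu0 h2, Real.log_div hb.ne' hu0.ne']
      field_simp
      ring
    · push Not at h2
      rw [if_neg (not_le.2 h2), max_eq_right h2.le]
      have h3 : ∫ x in h..(h * D), max x |u| / x ^ 2 = ∫ x in h..(h * D), |u| / x ^ 2 := by
        refine intervalIntegral.integral_congr fun x hx => ?_
        rw [uIcc_of_le hhD] at hx
        show max x |u| / x ^ 2 = |u| / x ^ 2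
        rw [max_eq_right (hx.2.trans h2.le)]
      rw [h3, inv_sq_int hh hhD]
      ring

theorem abs_add_abs_sub' {x u : ℝ} (hx : 0 ≤ x) : |x + u| + |x - u| = 2 * max x |u| := by
  rcases le_total 0 u with hu | hu
  · rw [abs_of_nonneg hu, abs_of_nonneg (by linarith : 0 ≤ x + u)]
    rcases le_total x u with h1 | h1
    · rw [max_eq_right h1, abs_of_nonpos (by linarith)]
      ring
    · rw [max_eq_left h1, abs_of_nonneg (by linarith)]
      ring
  · rw [abs_of_nonpos hu, abs_of_nonneg (by linarith : 0 ≤ x - u)]
    rcases le_total x (-u) with h1 | h1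
    · rw [max_eq_right h1, abs_of_nonpos (by linarith)]
      ring
    · rw [max_eq_left h1, abs_of_nonneg (by linarith)]
      ring

/-- the smoothed window minus the window is a second order quantity -/
theorem Ker_sub {l h D : ℝ} (hl : 0 < l) (hh : 0 < h) (hD : 1 ≤ D) (u : ℝ) :
    Ker l h D u - MM l * Lg h D u =
      (T2 l (h * D + u) + T2 l (h * D - u)) / (h * D) - (T2 l (h + u) + T2 l (h - u)) / h +
      ∫ x in h..(h * D), (T2 l (x + u) + T2 l (x - u)) / x ^ 2 := by
  have hhD : h ≤ h * D := le_mul_of_one_le_right hh.le hD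
  have hb : 0 < h * D := by positivity
  have hc := kg_cont hl
  have hi : ∀ a b : ℝ, IntervalIntegrable (kg l) volume a b := fun a b => hc.intervalIntegrable _ _
  set G : ℝ → ℝ := fun x => F2 l (x + u) + F2 l (x - u) with hG
  have hd : ∀ x : ℝ, HasDerivAt G (∫ v in (u - x)..(u + x), kg l v) x := by
    intro x
    have h1 : HasDerivAt (fun x => F2 l (x + u)) (∫ v in (0 : ℝ)..(x + u), kg l v) x := by
      have h2 : HasDerivAt (fun x : ℝ => x + u) 1 x := (hasDerivAt_id x).add_const u
      have h3 := (F2_deriv hl (x + u)).comp x h2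
      rw [mul_one] at h3
      exact h3
    have h4 : HasDerivAt (fun x => F2 l (x - u)) (∫ v in (0 : ℝ)..(x - u), kg l v) x := by
      have h2 : HasDerivAt (fun x : ℝ => x - u) 1 x := (hasDerivAt_id x).sub_const u
      have h3 := (F2_deriv hl (x - u)).comp x h2
      rw [mul_one] at h3
      exact h3
    refine (h1.add h4).congr_deriv ?_
    have e1 : ∫ v in (0 : ℝ)..(x - u), kg l v = ∫ v in (u - x)..0, kg l v := by
      have h5 := intervalIntegral.integral_comp_neg (a := 0) (b := x - u) (kg l)
      simp only [kg_neg] at h5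
      rw [h5, neg_zero]
      congr 1
      ring
    rw [e1, add_comm, add_comm x u]
    exact intervalIntegral.integral_add_adjacent_intervals (hi _ _) (hi _ _)
  have hG'c : Continuous fun x : ℝ => ∫ v in (u - x)..(u + x), kg l v := by
    have e : (fun x : ℝ => ∫ v in (u - x)..(u + x), kg l v) =
        fun x : ℝ => (∫ v in (0 : ℝ)..(u + x), kg l v) - ∫ v in (0 : ℝ)..(u - x), kg l v := by
      funext x
      rw [intervalIntegral.integral_interval_sub_left (hi _ _) (hi _ _)]
    rw [e]
    have hp : Continuous fun a : ℝ => ∫ v in (0 : ℝ)..a, kg l v :=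
      intervalIntegral.continuous_primitive hi 0
    exact (hp.comp (by fun_prop)).sub (hp.comp (by fun_prop))
  have h1 := parts hh hhD (fun x _ => hd x) hG'c
  have hFc : Continuous (F2 l) := continuous_iff_continuousAt.2 fun a => (F2_deriv hl a).continuousAt
  have hTc : Continuous (T2 l) := by
    unfold T2
    exact (hFc.sub ((continuous_abs.mul continuous_const).div_const 2)).add continuous_const
  have hF : ∀ a, F2 l a = T2 l a + |a| * MM l / 2 - mu1 l := by
    intro a
    unfold T2
    ring
  have hGx : ∀ x : ℝ, 0 ≤ x → G x = (T2 l (x + u) + T2 l (x - u)) + MM l * max x |u| - 2 * mu1 l := by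
    intro x hx
    have := abs_add_abs_sub' (u := u) hx
    show F2 l (x + u) + F2 l (x - u) = _
    rw [hF, hF]
    have e : MM l * max x |u| = MM l / 2 * (|x + u| + |x - u|) := by rw [this]; ring
    rw [e]
    ring
  have hpos : ∀ x ∈ uIcc h (h * D), x ^ 2 ≠ 0 := by
    intro x hx
    rw [uIcc_of_le hhD] at hx
    exact pow_ne_zero 2 (hh.trans_le hx.1).ne'
  have i1 : IntervalIntegrable (fun x => (T2 l (x + u) + T2 l (x - u)) / x ^ 2) volume h (h * D) := by
    apply ContinuousOn.intervalIntegrable
    apply ContinuousOn.div _ (continuous_id.pow 2).continuousOn hpos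
    exact ((hTc.comp (by fun_prop)).add (hTc.comp (by fun_prop))).continuousOn
  have i2 : IntervalIntegrable (fun x => max x |u| / x ^ 2) volume h (h * D) := by
    apply ContinuousOn.intervalIntegrable
    exact ContinuousOn.div (continuous_id.max continuous_const).continuousOn
      (continuous_id.pow 2).continuousOn hpos
  have i3 : IntervalIntegrable (fun x : ℝ => (2 * mu1 l) / x ^ 2) volume h (h * D) := by
    apply ContinuousOn.intervalIntegrable
    exact ContinuousOn.div continuousOn_const (continuous_id.pow 2).continuousOn hpos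
  have h2 : ∫ x in h..(h * D), G x / x ^ 2 =
      (∫ x in h..(h * D), (T2 l (x + u) + T2 l (x - u)) / x ^ 2) +
      MM l * (∫ x in h..(h * D), max x |u| / x ^ 2) - ∫ x in h..(h * D), (2 * mu1 l) / x ^ 2 := by
    rw [← intervalIntegral.integral_const_mul, ← intervalIntegral.integral_add i1
      (i2.const_mul _), ← intervalIntegral.integral_sub (i1.add (i2.const_mul _)) i3]
    refine intervalIntegral.integral_congr fun x hx => ?_
    rw [uIcc_of_le hhD] at hx
    show G x / x ^ 2 = (T2 l (x + u) + T2 l (x - u)) / x ^ 2 + MM l * (max x |u| / x ^ 2) -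
      2 * mu1 l / x ^ 2
    rw [hGx x (hh.le.trans hx.1)]
    ring
  unfold Ker
  rw [h1, h2, hGx _ hb.le, hGx _ hh.le, Lg_eq hh hD, inv_sq_int hh hhD]
  ring

theorem T2_cont {l : ℝ} (hl : 0 < l) : Continuous (T2 l) := by
  have hFc : Continuous (F2 l) := continuous_iff_continuousAt.2 fun a => (F2_deriv hl a).continuousAt
  unfold T2
  exact (hFc.sub ((continuous_abs.mul continuous_const).div_const 2)).add continuous_const

theorem EE_cont (l : ℝ) : Continuous (EE l) := by
  unfold EE
  apply Continuous.div
  · fun_prop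
  · fun_prop
  · intro x
    positivity

theorem Ker_bound {l h D : ℝ} (hl : 0 < l) (hh : 0 < h) (hD : 1 ≤ D) (u : ℝ) :
    |Ker l h D u - MM l * Lg h D u| ≤ 8200 / l *
      ((EE l (h * D + u) + EE l (h * D - u)) / (h * D) + (EE l (h + u) + EE l (h - u)) / h +
      ∫ x in h..(h * D), (EE l (x + u) + EE l (x - u)) / x ^ 2) := by
  have hhD : h ≤ h * D := le_mul_of_one_le_right hh.le hD
  have hb : 0 < h * D := by positivity
  have hEc := EE_cont l
  have hTc := T2_cont hl
  have hpos : ∀ x ∈ uIcc h (h * D), x ^ 2 ≠ 0 := by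
    intro x hx
    rw [uIcc_of_le hhD] at hx
    exact pow_ne_zero 2 (hh.trans_le hx.1).ne'
  have hpt : ∀ x : ℝ, |T2 l (x + u) + T2 l (x - u)| ≤ 8200 / l * (EE l (x + u) + EE l (x - u)) := by
    intro x
    refine (abs_add_le _ _).trans ?_
    rw [mul_add]
    exact add_le_add (T2_bound hl _) (T2_bound hl _)
  rw [Ker_sub hl hh hD]
  have e1 : |(T2 l (h * D + u) + T2 l (h * D - u)) / (h * D)| ≤
      8200 / l * ((EE l (h * D + u) + EE l (h * D - u)) / (h * D)) := by
    rw [abs_div, abs_of_pos hb, mul_div_assoc']
    exact div_le_div_of_nonneg_right (hpt _) hb.le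
  have e2 : |(T2 l (h + u) + T2 l (h - u)) / h| ≤
      8200 / l * ((EE l (h + u) + EE l (h - u)) / h) := by
    rw [abs_div, abs_of_pos hh, mul_div_assoc']
    exact div_le_div_of_nonneg_right (hpt _) hh.le
  have e3 : |∫ x in h..(h * D), (T2 l (x + u) + T2 l (x - u)) / x ^ 2| ≤
      8200 / l * ∫ x in h..(h * D), (EE l (x + u) + EE l (x - u)) / x ^ 2 := by
    rw [← Real.norm_eq_abs, ← intervalIntegral.integral_const_mul]
    apply intervalIntegral.norm_integral_le_of_norm_le hhD
    · refine Eventually.of_forall fun x hx => ?_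
      rw [Real.norm_eq_abs, abs_div, abs_of_pos (by
        have := hh.trans hx.1
        positivity : (0 : ℝ) < x ^ 2), mul_div_assoc']
      exact div_le_div_of_nonneg_right (hpt _) (by positivity)
    · apply ContinuousOn.intervalIntegrable
      apply ContinuousOn.mul continuousOn_const
      apply ContinuousOn.div _ (continuous_id.pow 2).continuousOn hpos
      exact ((hEc.comp (by fun_prop)).add (hEc.comp (by fun_prop))).continuousOn
  rw [mul_add, mul_add]
  refine (abs_add_le _ _).trans (add_le_add ((abs_sub _ _).trans (add_le_add e1 e2)) e3)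

end Num
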