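import Pool.Agent.W197.Num.P3

/-! # Moments of the prime sums -/

open Complex Filter Topology Set MeasureTheory

namespace Num

open SG (phi hh nn dd dl)
open SP LG Rig

theorem al_prime (T h D : ℝ) (hT : 1 ≤ T) (W : ℝ → ℂ)
    (hW : ∀ u ∈ Set.Icc 0 (Real.log T), ‖W u‖ ≤ 2) (p : ℕ) (hp : p.Prime) :
    ‖al T h D W p‖ ^ 2 ≤ 16 * (sg h D (Real.log p) ^ 2 / p) := by
  have hp0 : (0 : ℝ) < p := by exact_mod_cast hp.pos
  have hlp : 0 < Real.log p := Real.log_pos (by exact_mod_cast hp.one_lt)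
  have h4 : ‖(p : ℂ) ^ (-(1 / 2 : ℂ))‖ ^ 2 = 1 / p := by
    rw [Complex.norm_natCast_cpow_of_pos hp.pos, ← Real.rpow_natCast, ← Real.rpow_mul hp0.le]
    have : (-(1 / 2 : ℂ)).re * ((2 : ℕ) : ℝ) = -1 := by
      simp
    rw [this, Real.rpow_neg_one, one_div]
  have h5 : ‖bt T W p‖ ^ 2 ≤ 4 := by
    have := bt_le T hT W 2 hW p
    calc _ ≤ (2 : ℝ) ^ 2 := pow_le_pow_left₀ (norm_nonneg _) this 2
      _ = 4 := by norm_num
  unfold al
  rw [ArithmeticFunction.vonMangoldt_apply_prime hp, div_self hlp.ne', one_mul, norm_mul, norm_mul,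
    mul_pow, mul_pow, h4, Complex.norm_real, Real.norm_eq_abs, sq_abs]
  calc (2 * sg h D (Real.log p)) ^ 2 * (1 / p * ‖bt T W p‖ ^ 2)
      ≤ (2 * sg h D (Real.log p)) ^ 2 * (1 / p * 4) := by
        apply mul_le_mul_of_nonneg_left _ (sq_nonneg _)
        exact mul_le_mul_of_nonneg_left h5 (by positivity)
    _ = _ := by ring

theorem al_sq (T h D : ℝ) (hT : 1 ≤ T) (hh : 0 < h) (hD : 1 ≤ D) (W : ℝ → ℂ)
    (hW : ∀ u ∈ Set.Icc 0 (Real.log T), ‖W u‖ ≤ 2) (p : ℕ) (hp : p.Prime) :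
    ‖al T h D W (p ^ 2)‖ ^ 2 ≤ 36 * (1 / (p : ℝ) ^ 2) := by
  have hp0 : (0 : ℝ) < p := by exact_mod_cast hp.pos
  have hlp : 0 < Real.log p := Real.log_pos (by exact_mod_cast hp.one_lt)
  have hpp : 0 < p ^ 2 := by have := hp.pos; positivity
  have hpp0 : (0 : ℝ) < ((p ^ 2 : ℕ) : ℝ) := by exact_mod_cast hpp
  have hlogk : Real.log ((p ^ 2 : ℕ) : ℝ) = 2 * Real.log p := by
    push_cast
    rw [Real.log_pow]
    push_cast
    ring
  have h4 : ‖((p ^ 2 : ℕ) : ℂ) ^ (-(1 / 2 : ℂ))‖ ^ 2 = 1 / (p : ℝ) ^ 2 := by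
    rw [Complex.norm_natCast_cpow_of_pos hpp, ← Real.rpow_natCast, ← Real.rpow_mul hpp0.le]
    have : (-(1 / 2 : ℂ)).re * ((2 : ℕ) : ℝ) = -1 := by
      simp
    rw [this, Real.rpow_neg_one, one_div]
    push_cast
    rfl
  have h5 : ‖bt T W ((p ^ 2 : ℕ) : ℝ)‖ ^ 2 ≤ 4 := by
    have := bt_le T hT W 2 hW ((p ^ 2 : ℕ) : ℝ)
    calc _ ≤ (2 : ℝ) ^ 2 := pow_le_pow_left₀ (norm_nonneg _) this 2
      _ = 4 := by norm_num
  have h6 : sg h D (2 * Real.log p) ^ 2 ≤ 9 := by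
    have := sg_three hh hD (by positivity : 0 < 2 * Real.log p)
    rw [← sq_abs]
    calc _ ≤ (3 : ℝ) ^ 2 := pow_le_pow_left₀ (abs_nonneg _) this 2
      _ = 9 := by norm_num
  unfold al
  have h7 : (ArithmeticFunction.vonMangoldt (p ^ 2) / Real.log ((p ^ 2 : ℕ) : ℝ)) = 1 / 2 := by
    rw [ArithmeticFunction.vonMangoldt_apply_pow (by norm_num),
      ArithmeticFunction.vonMangoldt_apply_prime hp, hlogk]
    field_simp
  rw [h7, hlogk, norm_mul, norm_mul, mul_pow, mul_pow, h4, Complex.norm_real, Real.norm_eq_abs,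
    sq_abs]
  have e : (1 / 2 * (2 * sg h D (2 * Real.log p))) ^ 2 = sg h D (2 * Real.log p) ^ 2 := by ring
  rw [e]
  calc sg h D (2 * Real.log p) ^ 2 * (1 / (p : ℝ) ^ 2 * ‖bt T W ((p ^ 2 : ℕ) : ℝ)‖ ^ 2)
      ≤ 9 * (1 / (p : ℝ) ^ 2 * 4) := by
        apply mul_le_mul h6 _ (by positivity) (by norm_num)
        exact mul_le_mul_of_nonneg_left h5 (by positivity)
    _ = _ := by ring

theorem mom_gen : ∃ T0 : ℝ, 10 ≤ T0 ∧ ∀ T : ℝ, T0 ≤ T → ∀ (k X : ℕ) (β : ℕ → ℂ) (S : ℝ), 1 ≤ k →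
    (X : ℝ) ^ k ≤ T ^ (1 - 1 / 4 : ℝ) →
    ∑ p ∈ (Finset.Icc 1 X).filter Nat.Prime, ‖β p‖ ^ 2 ≤ S → ∀ V1 V2 : ℝ, T ≤ V1 →
    V1 ≤ V2 → V2 ≤ 2 * T →
    ∫ t in V1..V2, ‖∑ p ∈ (Finset.Icc 1 X).filter Nat.Prime, β p * (p : ℂ) ^ (-(I * t))‖ ^ (2 * k)
      ≤ 4 * T * (3 * k * S) ^ k ∧
    ∫ t in V1..V2, ‖∑ p ∈ (Finset.Icc 1 X).filter Nat.Prime,
      β p * (p : ℂ) ^ (-(I * ((2 * t : ℝ) : ℂ)))‖ ^ (2 * k) ≤ 4 * T * (3 * k * S) ^ k := by
  obtain ⟨T0, h10, hT0⟩ := mom_prime (1 / 4) (by norm_num) (by norm_num)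
  refine ⟨T0, h10, fun T hT k X β S hk hXk hβ V1 V2 hV1 hV hV2 => ?_⟩
  have hT10 : 10 ≤ T := h10.trans hT
  have hTpos : 0 < T := by linarith
  have hk0 : (0 : ℝ) < k := by exact_mod_cast hk
  have hD : 0 < dd (1 / 4) T := SG.Deep.dd_pos (1 / 4) T hTpos
  have hDT : dd (1 / 4) T ≤ T := by
    calc dd (1 / 4) T ≤ T ^ (1 : ℝ) := Real.rpow_le_rpow_of_exponent_le (by linarith) (by norm_num)
      _ = T := Real.rpow_one T
  have hS0 : 0 ≤ S := (Finset.sum_nonneg fun _ _ => by positivity).trans hβ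
  have hfac : (k.factorial : ℝ) ≤ (k : ℝ) ^ k := by exact_mod_cast Nat.factorial_le_pow k
  have h3k : (3 : ℝ) ≤ 3 ^ k := by
    calc (3 : ℝ) = 3 ^ 1 := by norm_num
      _ ≤ 3 ^ k := pow_le_pow_right₀ (by norm_num) hk
  set f : ℝ → ℝ := fun t => ‖∑ p ∈ (Finset.Icc 1 X).filter Nat.Prime,
    β p * (p : ℂ) ^ (-(I * t))‖ ^ (2 * k) with hf
  have hfc : Continuous f := by
    apply Continuous.pow
    apply Continuous.norm
    apply continuous_finsetSum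
    intro p hp
    have hp0 : (p : ℂ) ≠ 0 := by exact_mod_cast (Finset.mem_filter.1 hp).2.ne_zero
    apply Continuous.mul continuous_const
    apply Continuous.const_cpow
    · fun_prop
    · exact Or.inl hp0
  have hf0 : ∀ t, 0 ≤ f t := fun t => by positivity
  have hI : ∀ t0 : ℝ, Integrable (fun t => wt t0 (dd (1 / 4) T) t * f t) ∧
      ∫ t, wt t0 (dd (1 / 4) T) t * f t ≤ dd (1 / 4) T * (3 * k * S) ^ k := by
    intro t0
    obtain ⟨h1, h2⟩ := hT0 T hT t0 k X β hk hXk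
    refine ⟨h1, h2.trans ?_⟩
    calc 3 * dd (1 / 4) T * k.factorial *
          (∑ p ∈ (Finset.Icc 1 X).filter Nat.Prime, ‖β p‖ ^ 2) ^ k
        ≤ 3 ^ k * dd (1 / 4) T * (k : ℝ) ^ k * S ^ k := by
          apply mul_le_mul
          · apply mul_le_mul (mul_le_mul_of_nonneg_right h3k hD.le) hfac (by positivity)
              (by positivity)
          · exact pow_le_pow_left₀ (Finset.sum_nonneg fun _ _ => by positivity) hβ k
          · exact pow_nonneg (Finset.sum_nonneg fun _ _ => by positivity) k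
          · positivity
      _ = dd (1 / 4) T * (3 * k * S) ^ k := by
          rw [mul_pow, mul_pow]
          ring
  have hB0 : 0 ≤ (3 * k * S) ^ k := by positivity
  constructor
  · have hleb := GapAux.gauss_to_leb f hfc hf0 (dd (1 / 4) T) _ T hD hTpos hI
    have h5 : ∫ t in V1..V2, f t ≤ ∫ t in T..(2 * T), f t := by
      rw [intervalIntegral.integral_of_le hV, intervalIntegral.integral_of_le (by linarith)]
      apply setIntegral_mono_set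
      · exact (hfc.integrableOn_Icc).mono_set Set.Ioc_subset_Icc_self
      · exact Eventually.of_forall fun t => hf0 t
      · exact (Set.Ioc_subset_Ioc hV1 hV2).eventuallyLE
    refine h5.trans (hleb.trans ?_)
    have h6 : 2 * (T / dd (1 / 4) T + 1) * (dd (1 / 4) T * (3 * k * S) ^ k) =
        2 * (T + dd (1 / 4) T) * (3 * k * S) ^ k := by
      field_simp
    rw [h6]
    apply mul_le_mul_of_nonneg_right _ hB0
    linarith
  · have hleb := GapAux.gauss_to_leb f hfc hf0 (dd (1 / 4) T) _ (2 * T) hD (by linarith) hI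
    have e1 : ∫ t in V1..V2, ‖∑ p ∈ (Finset.Icc 1 X).filter Nat.Prime,
        β p * (p : ℂ) ^ (-(I * ((2 * t : ℝ) : ℂ)))‖ ^ (2 * k) = ∫ t in V1..V2, f (2 * t) := rfl
    have h5 : ∫ t in (2 * V1)..(2 * V2), f t ≤ ∫ t in (2 * T)..(2 * (2 * T)), f t := by
      rw [intervalIntegral.integral_of_le (by linarith), intervalIntegral.integral_of_le
        (by linarith)]
      apply setIntegral_mono_set
      · exact (hfc.integrableOn_Icc).mono_set Set.Ioc_subset_Icc_self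
      · exact Eventually.of_forall fun t => hf0 t
      · exact (Set.Ioc_subset_Ioc (by linarith) (by linarith)).eventuallyLE
    rw [e1, intervalIntegral.integral_comp_mul_left f (by norm_num : (2 : ℝ) ≠ 0), smul_eq_mul]
    have h6 : 2 * (2 * T / dd (1 / 4) T + 1) * (dd (1 / 4) T * (3 * k * S) ^ k) =
        2 * (2 * T + dd (1 / 4) T) * (3 * k * S) ^ k := by
      field_simp
    rw [h6] at hleb
    have h7 : 2⁻¹ * ∫ t in (2 * V1)..(2 * V2), f t ≤ 2⁻¹ * (2 * (2 * T + dd (1 / 4) T) *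
        (3 * k * S) ^ k) := mul_le_mul_of_nonneg_left (h5.trans hleb) (by norm_num)
    refine h7.trans ?_
    have h8 : 2⁻¹ * (2 * (2 * T + dd (1 / 4) T) * (3 * k * S) ^ k) =
        (2 * T + dd (1 / 4) T) * (3 * k * S) ^ k := by ring
    rw [h8]
    apply mul_le_mul_of_nonneg_right _ hB0
    linarith

theorem inv_sq_sum (S : Finset ℕ) : ∑ p ∈ S, 1 / (p : ℝ) ^ 2 ≤ 2 := by
  have h1 := sum_le_hasSum S (fun p _ => by positivity) hasSum_zeta_two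
  have h2 : Real.pi < 3.15 := Real.pi_lt_d2
  have h3 := Real.pi_pos
  refine h1.trans ?_
  nlinarith

theorem A2_eq (T h D l : ℝ) (W : ℝ → ℂ) (t : ℝ) : A2 T h D l W t =
    ∑ p ∈ PP l, al T h D W (p ^ 2) * (p : ℂ) ^ (-(I * ((2 * t : ℝ) : ℂ))) := by
  unfold A2
  refine Finset.sum_congr rfl fun p hp => ?_
  have hp0 : (p : ℂ) ≠ 0 := by exact_mod_cast (mem_PP.1 hp).1.ne_zero
  congr 1
  push_cast
  rw [sq, Complex.natCast_mul_natCast_cpow, ← Complex.cpow_add _ _ hp0]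
  congr 1
  ring

/-- both moment bounds -/
theorem mom_A : ∃ C T0 : ℝ, 1 ≤ C ∧ 10 ≤ T0 ∧ ∀ T : ℝ, T0 ≤ T → ∀ (k : ℕ) (h D : ℝ), 1 ≤ k →
    0 < h → 1 ≤ D → ∀ W : ℝ → ℂ, (∀ u ∈ Set.Icc 0 (Real.log T), ‖W u‖ ≤ 2) → ∀ V1 V2 : ℝ, T ≤ V1 →
    V1 ≤ V2 → V2 ≤ 2 * T →
    ∫ t in V1..V2, ‖A1 T h D (ell (1 / 4) T k) W t‖ ^ (2 * k) ≤
      4 * T * (C * k * (1 + Real.log (1 + D))) ^ k ∧
    ∫ t in V1..V2, ‖A2 T h D (ell (1 / 4) T k) W t‖ ^ (2 * k) ≤ 4 * T * (C * k) ^ k := by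
  obtain ⟨T0, h10, H⟩ := mom_gen
  refine ⟨31200, T0, by norm_num, h10, fun T hT k h D hk hh hD W hW V1 V2 hV1 hV hV2 => ?_⟩
  have hT10 : 10 ≤ T := h10.trans hT
  have hTpos : 0 < T := by linarith
  have hT1 : 1 ≤ T := by linarith
  have hk0 : (0 : ℝ) < k := by exact_mod_cast hk
  have hl := MkB.ell_pos (κ := 1 / 4) (by norm_num) hT10 hk
  set l := ell (1 / 4) T k with hld
  have h2l : 2 * l = (1 - 1 / 4) * Real.log T / k := by
    rw [hld]
    unfold ell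
    field_simp
  have hXk : ((⌊Real.exp (2 * l)⌋₊ : ℕ) : ℝ) ^ k ≤ T ^ (1 - 1 / 4 : ℝ) := by
    have h1 : ((⌊Real.exp (2 * l)⌋₊ : ℕ) : ℝ) ≤ Real.exp (2 * l) := Nat.floor_le (Real.exp_pos _).le
    calc ((⌊Real.exp (2 * l)⌋₊ : ℕ) : ℝ) ^ k ≤ (Real.exp (2 * l)) ^ k :=
          pow_le_pow_left₀ (Nat.cast_nonneg _) h1 k
      _ = T ^ (1 - 1 / 4 : ℝ) := by
          rw [← Real.exp_nat_mul, h2l, Real.rpow_def_of_pos hTpos]
          congr 1
          field_simp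
  have hXk2 : ((⌊Real.exp l⌋₊ : ℕ) : ℝ) ^ k ≤ T ^ (1 - 1 / 4 : ℝ) := by
    refine le_trans (pow_le_pow_left₀ (Nat.cast_nonneg _) ?_ k) hXk
    exact_mod_cast Nat.floor_le_floor (Real.exp_le_exp.2 (by linarith))
  have hb1 : ∑ p ∈ (Finset.Icc 1 ⌊Real.exp (2 * l)⌋₊).filter Nat.Prime, ‖al T h D W p‖ ^ 2 ≤
      10400 * (1 + Real.log (1 + D)) := by
    calc _ ≤ ∑ p ∈ PP (2 * l), 16 * (sg h D (Real.log p) ^ 2 / p) := by
          apply Finset.sum_le_sum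
          intro p hp
          exact al_prime T h D hT1 W hW p (Finset.mem_filter.1 hp).2
      _ = 16 * ∑ p ∈ PP (2 * l), sg h D (Real.log p) ^ 2 / p := by
          rw [Finset.mul_sum]
      _ ≤ 16 * (650 * (1 + Real.log (1 + D))) :=
          mul_le_mul_of_nonneg_left (var1 h D (2 * l) hh hD) (by norm_num)
      _ = _ := by ring
  have hb2 : ∑ p ∈ (Finset.Icc 1 ⌊Real.exp l⌋₊).filter Nat.Prime, ‖al T h D W (p ^ 2)‖ ^ 2 ≤
      72 := by
    calc _ ≤ ∑ p ∈ (Finset.Icc 1 ⌊Real.exp l⌋₊).filter Nat.Prime, 36 * (1 / (p : ℝ) ^ 2) := by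
          apply Finset.sum_le_sum
          intro p hp
          exact al_sq T h D hT1 hh hD W hW p (Finset.mem_filter.1 hp).2
      _ = 36 * ∑ p ∈ (Finset.Icc 1 ⌊Real.exp l⌋₊).filter Nat.Prime, 1 / (p : ℝ) ^ 2 := by
          rw [Finset.mul_sum]
      _ ≤ 36 * 2 := mul_le_mul_of_nonneg_left (inv_sq_sum _) (by norm_num)
      _ = _ := by norm_num
  constructor
  · have h1 := (H T hT k _ (al T h D W) _ hk hXk hb1 V1 V2 hV1 hV hV2).1
    refine h1.trans (le_of_eq ?_)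
    ring
  · have h1 := (H T hT k _ (fun p => al T h D W (p ^ 2)) _ hk hXk2 hb2 V1 V2 hV1 hV hV2).2
    have e : ∀ t : ℝ, A2 T h D l W t = ∑ p ∈ (Finset.Icc 1 ⌊Real.exp l⌋₊).filter Nat.Prime,
        al T h D W (p ^ 2) * (p : ℂ) ^ (-(I * ((2 * t : ℝ) : ℂ))) := fun t => A2_eq T h D l W t
    simp_rw [e]
    refine h1.trans ?_
    apply mul_le_mul_of_nonneg_left _ (by linarith)
    apply pow_le_pow_left₀ (by positivity)
    have : (0 : ℝ) ≤ k := hk0.le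
    linarith

end Num
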