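import Pool.Agent.W197.Rig.D

/-! # Sine integrals, prime squares, variance -/

open Complex Filter Topology Set MeasureTheory

namespace Num

open SG (phi hh nn dd dl)
open SP LG Rig

/-- truncated sine integral -/
noncomputable def sg (h D y : ℝ) : ℝ := ∫ x in h..(h * D), Real.sin (x * y) / x

theorem sin_far {a b y : ℝ} (ha : 0 < a) (hab : a ≤ b) (hy : 0 < y) :
    |∫ x in a..b, Real.sin (x * y) / x| ≤ 2 / (a * y) := by
  have hb : 0 < b := ha.trans_le hab
  have hpos : ∀ x ∈ uIcc a b, x ≠ 0 := by
    intro x hx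
    rw [uIcc_of_le hab] at hx
    exact (ha.trans_le hx.1).ne'
  have hd : ∀ x ∈ uIcc a b, HasDerivAt (fun x : ℝ => -(Real.cos (x * y) / (x * y)))
      (Real.sin (x * y) / x + Real.cos (x * y) / (x ^ 2 * y)) x := by
    intro x hx
    have hx0 := hpos x hx
    have h1 : HasDerivAt (fun x : ℝ => x * y) y x := by
      simpa using (hasDerivAt_id x).mul_const y
    have h2 := (h1.cos.div h1 (mul_ne_zero hx0 hy.ne')).neg
    refine h2.congr_deriv ?_
    field_simp
    ring
  have i1 : IntervalIntegrable (fun x => Real.sin (x * y) / x) volume a b := by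
    apply ContinuousOn.intervalIntegrable
    apply ContinuousOn.div _ continuousOn_id hpos
    fun_prop
  have i2 : IntervalIntegrable (fun x => Real.cos (x * y) / (x ^ 2 * y)) volume a b := by
    apply ContinuousOn.intervalIntegrable
    apply ContinuousOn.div
    · fun_prop
    · fun_prop
    · intro x hx
      exact mul_ne_zero (pow_ne_zero 2 (hpos x hx)) hy.ne'
  have h2 := intervalIntegral.integral_eq_sub_of_hasDerivAt hd (i1.add i2)
  rw [intervalIntegral.integral_add i1 i2] at h2
  have h3 : |∫ x in a..b, Real.cos (x * y) / (x ^ 2 * y)| ≤ 1 / (a * y) - 1 / (b * y) := by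
    have e1 : ∫ x in a..b, (1 / y) / x ^ 2 = (1 / y) / a - (1 / y) / b := by
      have hd2 : ∀ x ∈ uIcc a b, HasDerivAt (fun x : ℝ => -((1 / y) / x)) ((1 / y) / x ^ 2) x := by
        intro x hx
        have hx0 := hpos x hx
        have h1 := ((hasDerivAt_const x (1 / y)).div (hasDerivAt_id x) hx0).neg
        refine h1.congr_deriv ?_
        simp only [id]
        field_simp
        ring
      rw [intervalIntegral.integral_eq_sub_of_hasDerivAt hd2]
      · ring
      · apply ContinuousOn.intervalIntegrable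
        exact continuousOn_const.div (continuousOn_id.pow 2)
          (fun x hx => pow_ne_zero 2 (hpos x hx))
    have e2 : 1 / (a * y) - 1 / (b * y) = ∫ x in a..b, (1 / y) / x ^ 2 := by
      rw [e1]
      field_simp
    rw [e2, ← Real.norm_eq_abs]
    apply intervalIntegral.norm_integral_le_of_norm_le hab
    · refine Eventually.of_forall fun x hx => ?_
      have hx0 : 0 < x := ha.trans hx.1
      rw [Real.norm_eq_abs, abs_div, abs_of_pos (by positivity : 0 < x ^ 2 * y), div_div,
        mul_comm (x ^ 2) y]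
      exact div_le_div_of_nonneg_right (Real.abs_cos_le_one _) (by positivity)
    · apply ContinuousOn.intervalIntegrable
      exact continuousOn_const.div (continuousOn_id.pow 2)
        (fun x hx => pow_ne_zero 2 (hpos x hx))
  have h4 : |Real.cos (b * y) / (b * y)| ≤ 1 / (b * y) := by
    rw [abs_div, abs_of_pos (by positivity : 0 < b * y)]
    exact div_le_div_of_nonneg_right (Real.abs_cos_le_one _) (by positivity)
  have h5 : |Real.cos (a * y) / (a * y)| ≤ 1 / (a * y) := by
    rw [abs_div, abs_of_pos (by positivity : 0 < a * y)]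
    exact div_le_div_of_nonneg_right (Real.abs_cos_le_one _) (by positivity)
  have e3 : 2 / (a * y) = 1 / (a * y) + 1 / (a * y) := by ring
  rw [e3]
  rw [abs_le] at h3 h4 h5 ⊢
  constructor <;> linarith [h3.1, h3.2, h4.1, h4.2, h5.1, h5.2]

theorem sin_near {a b y : ℝ} (ha : 0 < a) (hab : a ≤ b) (hy : 0 < y) :
    |∫ x in a..b, Real.sin (x * y) / x| ≤ b * y := by
  have h1 := intervalIntegral.norm_integral_le_of_norm_le_const (a := a) (b := b)
    (C := y) (f := fun x => Real.sin (x * y) / x) (by
      intro x hx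
      rw [Set.uIoc_of_le hab] at hx
      have hx0 : 0 < x := ha.trans hx.1
      rw [Real.norm_eq_abs, abs_div, abs_of_pos hx0, div_le_iff₀ hx0]
      have h2 : |Real.sin (x * y)| ≤ |x * y| := Real.abs_sin_le_abs
      rw [abs_of_pos (by positivity : 0 < x * y)] at h2
      linarith)
  rw [abs_of_nonneg (by linarith), Real.norm_eq_abs] at h1
  refine h1.trans ?_
  nlinarith

theorem sg_far {h D y : ℝ} (hh : 0 < h) (hD : 1 ≤ D) (hy : 0 < y) : |sg h D y| ≤ 2 / (h * y) :=
  sin_far hh (le_mul_of_one_le_right hh.le hD) hy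

theorem sg_near {h D y : ℝ} (hh : 0 < h) (hD : 1 ≤ D) (hy : 0 < y) : |sg h D y| ≤ h * D * y :=
  sin_near hh (le_mul_of_one_le_right hh.le hD) hy

theorem sg_three {h D y : ℝ} (hh : 0 < h) (hD : 1 ≤ D) (hy : 0 < y) : |sg h D y| ≤ 3 := by
  have hhD : h ≤ h * D := le_mul_of_one_le_right hh.le hD
  rcases le_total 1 (h * y) with h1 | h1
  · refine (sg_far hh hD hy).trans ?_
    rw [div_le_iff₀ (by positivity)]
    linarith
  rcases le_total (h * D * y) 1 with h2 | h2
  · exact (sg_near hh hD hy).trans (by linarith)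
  have hy1 : h ≤ 1 / y := by rw [le_div_iff₀ hy]; exact h1
  have hy2 : 1 / y ≤ h * D := by rw [div_le_iff₀ hy]; exact h2
  have hy0 : 0 < 1 / y := by positivity
  have hcont : ∀ a b : ℝ, 0 < a → a ≤ b →
      IntervalIntegrable (fun x => Real.sin (x * y) / x) volume a b := by
    intro a b ha hab
    apply ContinuousOn.intervalIntegrable
    apply ContinuousOn.div _ continuousOn_id
    · intro x hx
      rw [uIcc_of_le hab] at hx
      exact (ha.trans_le hx.1).ne'
    · fun_prop
  unfold sg
  rw [← intervalIntegral.integral_add_adjacent_intervals (hcont h (1 / y) hh hy1)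
    (hcont (1 / y) (h * D) hy0 hy2)]
  refine (abs_add_le _ _).trans ?_
  have h3 := sin_near hh hy1 hy
  have h4 := sin_far hy0 hy2 hy
  have e1 : 1 / y * y = 1 := by field_simp
  rw [e1] at h3 h4
  linarith

theorem sg_sq {h D y : ℝ} (hh : 0 < h) (hD : 1 ≤ D) (hy : 0 < y) :
    sg h D y ^ 2 ≤ 9 * min 1 (h * D * y) := by
  have h1 := sg_three hh hD hy
  have h2 := sg_near hh hD hy
  have h0 := abs_nonneg (sg h D y)
  rw [← sq_abs]
  rcases min_choice 1 (h * D * y) with h3 | h3
  · rw [h3]
    nlinarith
  · rw [h3]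
    have : |sg h D y| ^ 2 ≤ 3 * (h * D * y) := by nlinarith
    have h5 : 0 ≤ h * D * y := by positivity
    linarith

theorem sg_sq_far {h D y : ℝ} (hh : 0 < h) (hD : 1 ≤ D) (hy : 0 < y) :
    sg h D y ^ 2 ≤ 4 / (h * y) ^ 2 := by
  have h1 := sg_far hh hD hy
  rw [← sq_abs]
  calc |sg h D y| ^ 2 ≤ (2 / (h * y)) ^ 2 := pow_le_pow_left₀ (abs_nonneg _) h1 2
    _ = _ := by rw [div_pow]; norm_num

/-- tails of Mertens type sums -/
theorem UU (h : ℝ) (hh : 0 < h) (n : ℕ) :
    ∑ p ∈ (PP (2 ^ n / h)).filter (fun p : ℕ => 1 / h < Real.log p), 1 / ((h * Real.log p) ^ 2 * p) ≤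
      80 / 3 * (1 - (1 / 4) ^ n) := by
  induction n with
  | zero =>
    rw [Finset.sum_eq_zero]
    · simp
    · intro p hp
      rw [Finset.mem_filter, mem_PP, pow_zero] at hp
      exact absurd hp.1.2 (not_le.2 hp.2)
  | succ n ih =>
    have hsub : (PP (2 ^ n / h)).filter (fun p : ℕ => 1 / h < Real.log p) ⊆
        (PP (2 ^ (n + 1) / h)).filter (fun p : ℕ => 1 / h < Real.log p) := by
      intro p hp
      rw [Finset.mem_filter, mem_PP] at hp ⊢
      refine ⟨⟨hp.1.1, hp.1.2.trans ?_⟩, hp.2⟩
      apply div_le_div_of_nonneg_right _ hh.le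
      exact pow_le_pow_right₀ (by norm_num) (by omega)
    rw [← Finset.sum_sdiff hsub]
    have hy : 0 ≤ 2 ^ (n + 1) / h := by positivity
    have h2 : ∑ p ∈ (PP (2 ^ (n + 1) / h)).filter (fun p : ℕ => 1 / h < Real.log p) \
        (PP (2 ^ n / h)).filter (fun p : ℕ => 1 / h < Real.log p), 1 / ((h * Real.log p) ^ 2 * p) ≤
        h / 8 ^ n * ∑ p ∈ PP (2 ^ (n + 1) / h), Real.log p / p := by
      rw [Finset.mul_sum]
      calc _ ≤ ∑ p ∈ (PP (2 ^ (n + 1) / h)).filter (fun p : ℕ => 1 / h < Real.log p) \
          (PP (2 ^ n / h)).filter (fun p : ℕ => 1 / h < Real.log p),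
            h / 8 ^ n * (Real.log p / p) := by
            apply Finset.sum_le_sum
            intro p hp
            rw [Finset.mem_sdiff, Finset.mem_filter, Finset.mem_filter, mem_PP, mem_PP] at hp
            obtain ⟨⟨⟨hp1, hp2⟩, hp3⟩, hp4⟩ := hp
            have hp0 : (0 : ℝ) < p := by exact_mod_cast hp1.pos
            have hlp : 0 < Real.log p := by
              have : 0 < 1 / h := by positivity
              linarith
            have h5 : 2 ^ n / h < Real.log p := by
              by_contra hcon
              exact hp4 ⟨⟨hp1, not_lt.1 hcon⟩, hp3⟩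
            rw [div_lt_iff₀ hh] at h5
            rw [div_mul_div_comm, div_le_div_iff₀ (by positivity) (by positivity)]
            have h6 : (8 : ℝ) ^ n ≤ (Real.log p * h) ^ 3 := by
              calc (8 : ℝ) ^ n = (2 ^ n) ^ 3 := by
                    rw [← pow_mul, mul_comm n 3, pow_mul]
                    norm_num
                _ ≤ _ := pow_le_pow_left₀ (by positivity) h5.le 3
            calc 1 * (8 ^ n * (p : ℝ)) ≤ (Real.log p * h) ^ 3 * p := by
                  rw [one_mul]
                  exact mul_le_mul_of_nonneg_right h6 hp0.le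
              _ = _ := by ring
        _ ≤ _ := by
            apply Finset.sum_le_sum_of_subset_of_nonneg
            · exact Finset.sdiff_subset.trans (Finset.filter_subset _ _)
            · intro p _ _
              have := Real.log_natCast_nonneg p
              positivity
    have h3 := mul_le_mul_of_nonneg_left (mert (2 ^ (n + 1) / h) hy) (by positivity :
      0 ≤ h / 8 ^ n)
    have h4 : h / 8 ^ n * (10 * (2 ^ (n + 1) / h)) = 20 * (1 / 4) ^ n := by
      have e1 : (8 : ℝ) ^ n = 2 ^ n * 4 ^ n := by rw [← mul_pow]; norm_num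
      have e2 : (1 / 4 : ℝ) ^ n = 1 / 4 ^ n := by rw [div_pow, one_pow]
      rw [e1, e2, pow_succ]
      field_simp
      ring
    have h5 : (80 : ℝ) / 3 * (1 - (1 / 4) ^ (n + 1)) =
        80 / 3 * (1 - (1 / 4) ^ n) + 20 * (1 / 4) ^ n := by
      rw [pow_succ]
      ring
    rw [h5]
    linarith

/-- variance of the main prime sum -/
theorem var1 (h D y : ℝ) (hh : 0 < h) (hD : 1 ≤ D) :
    ∑ p ∈ PP y, sg h D (Real.log p) ^ 2 / p ≤ 650 * (1 + Real.log (1 + D)) := by
  classical
  have hD0 : 0 < D := by linarith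
  rw [← Finset.sum_filter_add_sum_filter_not (PP y) (fun p : ℕ => 1 / h < Real.log p)]
  obtain ⟨n, hn⟩ : ∃ n : ℕ, y ≤ 2 ^ n / h := by
    obtain ⟨n, hn⟩ := pow_unbounded_of_one_lt (y * h) (by norm_num : (1 : ℝ) < 2)
    exact ⟨n, by rw [le_div_iff₀ hh]; exact hn.le⟩
  have h1 : ∑ p ∈ (PP y).filter (fun p : ℕ => 1 / h < Real.log p), sg h D (Real.log p) ^ 2 / p ≤
      4 * (80 / 3 * (1 - (1 / 4) ^ n)) := by
    calc _ ≤ ∑ p ∈ (PP (2 ^ n / h)).filter (fun p : ℕ => 1 / h < Real.log p),
          sg h D (Real.log p) ^ 2 / p := by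
          apply Finset.sum_le_sum_of_subset_of_nonneg
          · intro p hp
            rw [Finset.mem_filter, mem_PP] at hp ⊢
            exact ⟨⟨hp.1.1, hp.1.2.trans hn⟩, hp.2⟩
          · intro p _ _
            positivity
      _ ≤ ∑ p ∈ (PP (2 ^ n / h)).filter (fun p : ℕ => 1 / h < Real.log p),
          4 * (1 / ((h * Real.log p) ^ 2 * p)) := by
          apply Finset.sum_le_sum
          intro p hp
          rw [Finset.mem_filter, mem_PP] at hp
          have hp0 : (0 : ℝ) < p := by exact_mod_cast hp.1.1.pos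
          have hlp : 0 < Real.log p := by
            have : 0 < 1 / h := by positivity
            linarith [hp.2]
          have h2 := div_le_div_of_nonneg_right (sg_sq_far hh hD hlp) hp0.le
          refine h2.trans (le_of_eq ?_)
          field_simp
      _ ≤ _ := by
          rw [← Finset.mul_sum]
          exact mul_le_mul_of_nonneg_left (UU h hh n) (by norm_num)
  have h2 : ∑ p ∈ (PP y).filter (fun p : ℕ => ¬ 1 / h < Real.log p), sg h D (Real.log p) ^ 2 / p ≤
      9 * VV (h * D) (1 / h) := by
    unfold VV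
    rw [Finset.mul_sum]
    calc _ ≤ ∑ p ∈ (PP y).filter (fun p : ℕ => ¬ 1 / h < Real.log p),
          9 * (min 1 (h * D * Real.log p) / (p : ℝ)) := by
          apply Finset.sum_le_sum
          intro p hp
          rw [Finset.mem_filter, mem_PP] at hp
          have hp0 : (0 : ℝ) < p := by exact_mod_cast hp.1.1.pos
          have hlp : 0 < Real.log p := Real.log_pos (by exact_mod_cast hp.1.1.one_lt)
          rw [mul_div_assoc']
          exact div_le_div_of_nonneg_right (sg_sq hh hD hlp) hp0.le
      _ ≤ _ := by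
          apply Finset.sum_le_sum_of_subset_of_nonneg
          · intro p hp
            rw [Finset.mem_filter, mem_PP, not_lt] at hp
            rw [mem_PP]
            exact ⟨hp.1.1, hp.2⟩
          · intro p _ _
            have h3 : 0 ≤ Real.log p := Real.log_natCast_nonneg p
            have h4 : 0 ≤ min 1 (h * D * Real.log p) := le_min zero_le_one (by positivity)
            positivity
  have h3 := VV_bound (h * D) (1 / h) (by positivity) (by positivity)
  have e1 : h * D * (1 / h) = D := by field_simp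
  rw [e1] at h3
  have h4 : (0 : ℝ) ≤ (1 / 4) ^ n := by positivity
  have h5 : 0 ≤ Real.log (1 + D) := Real.log_nonneg (by linarith)
  linarith

end Num
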