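import Pool.Agent.W197.Num.P
import Pool.Agent.W197.Rig.C2

/-! # The prime side integrated over a window: primes and squares of primes -/

open Complex Filter Topology Set MeasureTheory

namespace Num

open SG (phi hh nn dd dl)
open SP LG Rig

theorem gg_norm2 (T t h : ℝ) (hh : 0 ≤ h) (W : ℝ → ℂ) (p k : ℕ) (hp : p.Prime) :
    ‖gg T t h W (p ^ (k + 2))‖ ≤ h * (Real.log p * ((p : ℝ) ^ (-(1 / 2) : ℝ)) ^ (k + 2)) *
      ‖bt T W ((p ^ (k + 2) : ℕ) : ℝ)‖ := by
  have hp0 : (0 : ℝ) < p := by exact_mod_cast hp.pos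
  have hlp : 0 < Real.log p := Real.log_pos (by exact_mod_cast hp.one_lt)
  have hpos : 2 ≤ p ^ (k + 2) := by
    calc 2 ≤ p := hp.two_le
      _ = p ^ 1 := (pow_one p).symm
      _ ≤ p ^ (k + 2) := Nat.pow_le_pow_right hp.pos (by omega)
  refine (gg_norm T t h hh W _ hpos).trans ?_
  rw [ArithmeticFunction.vonMangoldt_apply_pow (by omega),
    ArithmeticFunction.vonMangoldt_apply_prime hp]
  have h1 : ((p ^ (k + 2) : ℕ) : ℝ) ^ (-(1 / 2) : ℝ) = ((p : ℝ) ^ (-(1 / 2) : ℝ)) ^ (k + 2) := by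
    push_cast
    rw [← Real.rpow_natCast, ← Real.rpow_natCast, ← Real.rpow_mul hp0.le,
      ← Real.rpow_mul hp0.le]
    ring_nf
  have hlogk : Real.log ((p ^ (k + 2) : ℕ) : ℝ) = (k + 2) * Real.log p := by
    push_cast
    rw [Real.log_pow]
    push_cast
    ring
  rw [h1, hlogk]
  have hk2 : (0 : ℝ) < (k + 2) * Real.log p := by positivity
  have h2 : min 2 (h * ((k + 2) * Real.log p)) / ((k + 2) * Real.log p) ≤ h := by
    rw [div_le_iff₀ hk2]
    exact min_le_right _ _
  apply mul_le_mul_of_nonneg_right _ (norm_nonneg _)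
  calc Real.log p * (((p : ℝ) ^ (-(1 / 2) : ℝ)) ^ (k + 2) *
        (min 2 (h * ((k + 2) * Real.log p)) / ((k + 2) * Real.log p)))
      ≤ Real.log p * (((p : ℝ) ^ (-(1 / 2) : ℝ)) ^ (k + 2) * h) := by
        apply mul_le_mul_of_nonneg_left _ hlp.le
        exact mul_le_mul_of_nonneg_left h2 (by positivity)
    _ = _ := by ring

/-- summable majorant -/
noncomputable def B3 (n : ℕ) : ℝ := 64 * ((n : ℝ) ^ (-(5 / 4) : ℝ) + ppG (1 / 2) n)

theorem B3_nonneg (n : ℕ) : 0 ≤ B3 n := by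
  unfold B3
  have := ppG_nonneg (1 / 2) n
  positivity

theorem B3_summable : Summable B3 := by
  unfold B3
  apply Summable.mul_left
  apply Summable.add
  · exact Real.summable_nat_rpow.2 (by norm_num)
  · exact ppG_summable _ (by norm_num)

theorem gg_inner2 (T t h l : ℝ) (hT : 1 ≤ T) (hh : 0 ≤ h) (W : ℝ → ℂ)
    (hW : ∀ u ∈ Set.Icc 0 (Real.log T), ‖W u‖ ≤ 2) (hl : ∀ u : ℝ, l ≤ u → W u = 0)
    (p : ℕ) (hp : p.Prime) :
    ‖(∑' k : ℕ, gg T t h W (p ^ (k + 2))) - (if p ∈ PP l then gg T t h W (p ^ 2) else 0)‖ ≤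
      h * B3 p := by
  have hL : 0 ≤ Real.log T := Real.log_nonneg hT
  have hp2 : (2 : ℝ) ≤ p := by exact_mod_cast hp.two_le
  have hp0 : (0 : ℝ) < p := by linarith
  have hlp : 0 < Real.log p := Real.log_pos (by linarith)
  set r : ℝ := (p : ℝ) ^ (-(1 / 2) : ℝ) with hr
  have hr0 : 0 < r := Real.rpow_pos_of_pos hp0 _
  have hr2 : r ^ 2 = 1 / p := by
    rw [hr, ← Real.rpow_natCast, ← Real.rpow_mul hp0.le]
    norm_num
    rw [Real.rpow_neg_one]
  have hr34 : r ≤ 3 / 4 := by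
    have h1 : r ^ 2 ≤ (3 / 4) ^ 2 := by
      rw [hr2, div_le_iff₀ hp0]
      nlinarith
    exact le_of_sq_le_sq h1 (by norm_num)
  have hr1 : r < 1 := by linarith
  have hterm : ∀ k : ℕ, ‖gg T t h W (p ^ (k + 2))‖ ≤ (2 * h * Real.log p * r ^ 2) * r ^ k := by
    intro k
    refine (gg_norm2 T t h hh W p k hp).trans ?_
    have h1 := bt_le T hT W 2 hW ((p ^ (k + 2) : ℕ) : ℝ)
    calc _ ≤ h * (Real.log p * r ^ (k + 2)) * 2 := mul_le_mul_of_nonneg_left h1 (by positivity)
      _ = _ := by ring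
  have hsum : Summable fun k : ℕ => gg T t h W (p ^ (k + 2)) := by
    apply Summable.of_norm_bounded _ hterm
    exact (summable_geometric_of_lt_one hr0.le hr1).mul_left _
  have hsplit : ∑' k : ℕ, gg T t h W (p ^ (k + 2)) = gg T t h W (p ^ 2) +
      ∑' k : ℕ, gg T t h W (p ^ (k + 1 + 2)) := by
    rw [hsum.tsum_eq_zero_add]
  have hgeo : HasSum (fun k : ℕ => (2 * h * Real.log p * r ^ 3) * r ^ k)
      ((2 * h * Real.log p * r ^ 3) * (1 - r)⁻¹) :=
    (hasSum_geometric_of_lt_one hr0.le hr1).mul_left _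
  have h1 : ‖∑' k : ℕ, gg T t h W (p ^ (k + 1 + 2))‖ ≤
      (2 * h * Real.log p * r ^ 3) * (1 - r)⁻¹ := by
    apply tsum_of_norm_bounded hgeo
    intro k
    refine (hterm (k + 1)).trans (le_of_eq ?_)
    ring
  have h4 : (1 - r)⁻¹ ≤ 4 := by
    rw [inv_le_comm₀ (by linarith) (by norm_num)]
    linarith
  have h5 : ‖∑' k : ℕ, gg T t h W (p ^ (k + 1 + 2))‖ ≤ 8 * h * Real.log p * r ^ 3 := by
    refine h1.trans ?_
    calc _ ≤ (2 * h * Real.log p * r ^ 3) * 4 := mul_le_mul_of_nonneg_left h4 (by positivity)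
      _ = _ := by ring
  have h6 : Real.log p * r ^ 3 ≤ 4 * (p : ℝ) ^ (-(5 / 4) : ℝ) := by
    have h7 : Real.log p ≤ (p : ℝ) ^ (1 / 4 : ℝ) / (1 / 4) :=
      Real.log_le_rpow_div hp0.le (by norm_num)
    have h8 : r ^ 3 = (p : ℝ) ^ (-(3 / 2) : ℝ) := by
      rw [hr, ← Real.rpow_natCast, ← Real.rpow_mul hp0.le]
      norm_num
    rw [h8]
    calc Real.log p * (p : ℝ) ^ (-(3 / 2) : ℝ) ≤
          ((p : ℝ) ^ (1 / 4 : ℝ) / (1 / 4)) * (p : ℝ) ^ (-(3 / 2) : ℝ) :=
          mul_le_mul_of_nonneg_right h7 (by positivity)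
      _ = 4 * ((p : ℝ) ^ (1 / 4 : ℝ) * (p : ℝ) ^ (-(3 / 2) : ℝ)) := by ring
      _ = 4 * (p : ℝ) ^ (-(5 / 4) : ℝ) := by
          rw [← Real.rpow_add hp0]
          norm_num
  have h9 : ‖∑' k : ℕ, gg T t h W (p ^ (k + 1 + 2))‖ ≤ h * (64 * (p : ℝ) ^ (-(5 / 4) : ℝ)) := by
    refine h5.trans ?_
    have h10 := mul_le_mul_of_nonneg_left h6 (by positivity : 0 ≤ 8 * h)
    have h11 : 0 ≤ h * (p : ℝ) ^ (-(5 / 4) : ℝ) := by positivity
    calc 8 * h * Real.log p * r ^ 3 = 8 * h * (Real.log p * r ^ 3) := by ring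
      _ ≤ 8 * h * (4 * (p : ℝ) ^ (-(5 / 4) : ℝ)) := h10
      _ ≤ _ := by linarith
  have hG := ppG_nonneg (1 / 2) p
  by_cases hpl : p ∈ PP l
  · rw [if_pos hpl, hsplit, add_sub_cancel_left]
    refine h9.trans ?_
    apply mul_le_mul_of_nonneg_left _ hh
    unfold B3
    linarith
  · rw [if_neg hpl, sub_zero, hsplit]
    have hlt : l < Real.log p := by
      by_contra h1
      exact hpl (mem_PP.2 ⟨hp, not_lt.1 h1⟩)
    have hlogk : Real.log ((p ^ 2 : ℕ) : ℝ) = 2 * Real.log p := by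
      push_cast
      rw [Real.log_pow]
      push_cast
      ring
    have h12 := bt_far' T hT W 2 l hW hl ((p ^ 2 : ℕ) : ℝ) (by rw [hlogk]; linarith)
    have h13 : Real.exp (-(Real.log ((p ^ 2 : ℕ) : ℝ) - l) ^ 2 / 2) ≤
        Real.exp (-(1 / 2) * (Real.log p) ^ 2) := by
      apply Real.exp_le_exp.2
      rw [hlogk]
      nlinarith
    have h14 : ‖gg T t h W (p ^ 2)‖ ≤ h * (Real.log p * r ^ 2) * ‖bt T W ((p ^ 2 : ℕ) : ℝ)‖ :=
      gg_norm2 T t h hh W p 0 hp
    have h15 : ‖gg T t h W (p ^ 2)‖ ≤ h * (64 * ppG (1 / 2) p) := by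
      refine h14.trans ?_
      calc h * (Real.log p * r ^ 2) * ‖bt T W ((p ^ 2 : ℕ) : ℝ)‖
          ≤ h * (Real.log p * r ^ 2) * (2 * Real.exp (-(1 / 2) * (Real.log p) ^ 2)) := by
            apply mul_le_mul_of_nonneg_left _ (by positivity)
            exact h12.trans (mul_le_mul_of_nonneg_left h13 (by norm_num))
        _ ≤ h * (Real.log p * r) * (2 * Real.exp (-(1 / 2) * (Real.log p) ^ 2)) := by
            apply mul_le_mul_of_nonneg_right _ (by positivity)
            apply mul_le_mul_of_nonneg_left _ hh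
            apply mul_le_mul_of_nonneg_left _ hlp.le
            nlinarith
        _ = h * (2 * ppG (1 / 2) p) := by
            unfold ppG
            ring
        _ ≤ _ := by
            apply mul_le_mul_of_nonneg_left _ hh
            linarith
    refine (norm_add_le _ _).trans ?_
    calc _ ≤ h * (64 * ppG (1 / 2) p) + h * (64 * (p : ℝ) ^ (-(5 / 4) : ℝ)) :=
          add_le_add h15 h9
      _ = _ := by
          unfold B3
          ring

/-- the integrated prime side: primes, squares of primes, and a small remainder -/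
theorem ps_main2 : ∃ C : ℝ, 0 < C ∧ ∀ T : ℝ, 1 ≤ T → ∀ t h l : ℝ, 0 ≤ h → 0 < l →
    ∀ W : ℝ → ℂ, (∀ u ∈ Set.Icc 0 (Real.log T), ‖W u‖ ≤ 2) → (∀ u : ℝ, l ≤ u → W u = 0) →
    ‖(∫ s in t..(t + h), ps T s W) - ((∑ p ∈ PP (2 * l), gg T t h W p) +
      ∑ p ∈ PP l, gg T t h W (p ^ 2))‖ ≤ C * h := by
  refine ⟨2 * (∑' n, ppG (1 / 8) n) + ∑' n, B3 n + 1, ?_, ?_⟩
  · have h1 : 0 ≤ ∑' n, ppG (1 / 8) n := tsum_nonneg (ppG_nonneg _)
    have h2 : 0 ≤ ∑' n, B3 n := tsum_nonneg B3_nonneg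
    positivity
  intro T hT t h l hh hl0 W hW hl
  have hL : 0 ≤ Real.log T := Real.log_nonneg hT
  have hHS := gg_hasSum T t h hT W 2 hW
  have hsum := hHS.summable
  have hsupp : Function.support (gg T t h W) ⊆ {n | IsPrimePow n} := by
    intro n hn
    by_contra hcon
    apply hn
    have h0 : ArithmeticFunction.vonMangoldt n = 0 := by
      rw [ArithmeticFunction.vonMangoldt_eq_zero_iff]
      exact hcon
    unfold gg ppf
    rw [h0]
    simp
  have hps : (∫ s in t..(t + h), ps T s W) = (∑' p : Nat.Primes, gg T t h W p) +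
      ∑' (p : Nat.Primes) (k : ℕ), gg T t h W (p ^ (k + 2)) := by
    rw [← hHS.tsum_eq]
    exact tsum_eq_tsum_primes_add_tsum_primes_of_support_subset_prime_powers hsum hsupp
  set S : Finset ℕ := PP (2 * l) with hS
  -- primes
  set g : ℕ → ℂ := Set.indicator {p : ℕ | p.Prime} (gg T t h W) with hg
  have hgs : Summable g := hsum.indicator _
  have hA1 : (∑' p : Nat.Primes, gg T t h W p) = ∑' n, g n :=
    tsum_subtype {p : ℕ | p.Prime} (gg T t h W)
  have hA2 : ∑ p ∈ S, gg T t h W p = ∑ p ∈ S, g p := by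
    apply Finset.sum_congr rfl
    intro p hp
    rw [hg, Set.indicator_of_mem]
    exact (mem_PP.1 hp).1
  have hA3 : ∑ p ∈ S, g p = ∑' n, (if n ∈ S then g n else 0) := by
    rw [tsum_eq_sum (s := S)]
    · apply Finset.sum_congr rfl
      intro p hp
      rw [if_pos hp]
    · intro n hn
      rw [if_neg hn]
  have hs2 : Summable (fun n => if n ∈ S then g n else 0) := by
    apply summable_of_ne_finset_zero (s := S)
    intro n hn
    rw [if_neg hn]
  have hA : ‖(∑' p : Nat.Primes, gg T t h W p) - ∑ p ∈ S, gg T t h W p‖ ≤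
      2 * h * ∑' n, ppG (1 / 8) n := by
    rw [hA1, hA2, hA3, ← hgs.tsum_sub hs2]
    apply tsum_of_norm_bounded ((ppG_summable (1 / 8) (by norm_num)).hasSum.mul_left _)
    intro n
    have hG0 := ppG_nonneg (1 / 8) n
    by_cases hnS : n ∈ S
    · rw [if_pos hnS, sub_self, norm_zero]
      positivity
    · rw [if_neg hnS, sub_zero]
      by_cases hn : n.Prime
      · rw [hg, Set.indicator_of_mem (show n ∈ {p : ℕ | p.Prime} from hn)]
        have hlogn : 2 * l < Real.log n := by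
          by_contra h1
          exact hnS (mem_PP.2 ⟨hn, not_lt.1 h1⟩)
        have hlp : 0 < Real.log n := by linarith
        refine (gg_norm T t h hh W n hn.two_le).trans ?_
        have h1 : min 2 (h * Real.log n) / Real.log n ≤ h := by
          rw [div_le_iff₀ hlp]
          exact min_le_right _ _
        have h2 := bt_far' T hT W 2 l hW hl n (by linarith)
        have h3 : Real.exp (-(Real.log n - l) ^ 2 / 2) ≤
            Real.exp (-(1 / 8) * (Real.log n) ^ 2) := by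
          apply Real.exp_le_exp.2
          nlinarith
        have h4 : ‖bt T W n‖ ≤ 2 * Real.exp (-(1 / 8) * (Real.log n) ^ 2) :=
          h2.trans (mul_le_mul_of_nonneg_left h3 (by norm_num))
        rw [ArithmeticFunction.vonMangoldt_apply_prime hn]
        calc Real.log n * ((n : ℝ) ^ (-(1 / 2) : ℝ) * (min 2 (h * Real.log n) / Real.log n)) *
              ‖bt T W n‖ ≤ Real.log n * ((n : ℝ) ^ (-(1 / 2) : ℝ) * h) *
              (2 * Real.exp (-(1 / 8) * (Real.log n) ^ 2)) := by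
              apply mul_le_mul _ h4 (norm_nonneg _) (by positivity)
              apply mul_le_mul_of_nonneg_left _ hlp.le
              exact mul_le_mul_of_nonneg_left h1 (by positivity)
          _ = _ := by
              unfold ppG
              ring
      · rw [hg, Set.indicator_of_notMem (show n ∉ {p : ℕ | p.Prime} from hn), norm_zero]
        positivity
  -- squares
  set q : ℕ → ℂ := fun n => if n ∈ PP l then gg T t h W (n ^ 2) else 0 with hq
  have hq1 : ∑ p ∈ PP l, gg T t h W (p ^ 2) = ∑' p : Nat.Primes, q p := by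
    have e1 : (∑' p : Nat.Primes, q p) = ∑' n, Set.indicator {p : ℕ | p.Prime} q n :=
      tsum_subtype {p : ℕ | p.Prime} q
    rw [e1, tsum_eq_sum (s := PP l)]
    · apply Finset.sum_congr rfl
      intro p hp
      rw [Set.indicator_of_mem (show p ∈ {p : ℕ | p.Prime} from (mem_PP.1 hp).1), hq]
      simp only
      rw [if_pos hp]
    · intro n hn
      by_cases hn2 : n.Prime
      · rw [Set.indicator_of_mem (show n ∈ {p : ℕ | p.Prime} from hn2), hq]
        simp only
        rw [if_neg hn]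
      · rw [Set.indicator_of_notMem (show n ∉ {p : ℕ | p.Prime} from hn2)]
  have hqs : Summable fun p : Nat.Primes => q p := by
    have : Summable q := by
      apply summable_of_ne_finset_zero (s := PP l)
      intro n hn
      rw [hq]
      simp only
      rw [if_neg hn]
    exact this.subtype _
  have hBs := B3_summable.mul_left h
  have hBsub : Summable (fun p : Nat.Primes => h * B3 p) := hBs.subtype _
  have hin : ∀ p : Nat.Primes, ‖(∑' k : ℕ, gg T t h W ((p : ℕ) ^ (k + 2))) - q p‖ ≤ h * B3 p :=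
    fun p => gg_inner2 T t h l hT hh W hW hl p p.2
  have hdiff : Summable fun p : Nat.Primes =>
      (∑' k : ℕ, gg T t h W ((p : ℕ) ^ (k + 2))) - q p :=
    Summable.of_norm_bounded hBsub hin
  have hfull : Summable fun p : Nat.Primes => ∑' k : ℕ, gg T t h W ((p : ℕ) ^ (k + 2)) := by
    have := hdiff.add hqs
    refine this.congr fun p => ?_
    ring
  have hC : ‖(∑' (p : Nat.Primes) (k : ℕ), gg T t h W (p ^ (k + 2))) -
      ∑ p ∈ PP l, gg T t h W (p ^ 2)‖ ≤ h * ∑' n, B3 n := by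
    rw [hq1, ← hfull.tsum_sub hqs]
    have h1 : ‖∑' p : Nat.Primes, ((∑' k : ℕ, gg T t h W ((p : ℕ) ^ (k + 2))) - q p)‖ ≤
        ∑' p : Nat.Primes, h * B3 p := tsum_of_norm_bounded hBsub.hasSum hin
    refine h1.trans ?_
    rw [← tsum_mul_left]
    exact hBs.tsum_subtype_le (fun n => h * B3 n) {p : ℕ | p.Prime} (fun n =>
      mul_nonneg hh (B3_nonneg n))
  rw [hps]
  have hfin : ‖(∑' p : Nat.Primes, gg T t h W p) +
      (∑' (p : Nat.Primes) (k : ℕ), gg T t h W (p ^ (k + 2))) -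
      ((∑ p ∈ S, gg T t h W p) + ∑ p ∈ PP l, gg T t h W (p ^ 2))‖ ≤
      2 * h * (∑' n, ppG (1 / 8) n) + h * ∑' n, B3 n := by
    have e : (∑' p : Nat.Primes, gg T t h W p) +
      (∑' (p : Nat.Primes) (k : ℕ), gg T t h W (p ^ (k + 2))) -
      ((∑ p ∈ S, gg T t h W p) + ∑ p ∈ PP l, gg T t h W (p ^ 2)) =
      ((∑' p : Nat.Primes, gg T t h W p) - ∑ p ∈ S, gg T t h W p) +
      ((∑' (p : Nat.Primes) (k : ℕ), gg T t h W (p ^ (k + 2))) -
      ∑ p ∈ PP l, gg T t h W (p ^ 2)) := by ring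
    rw [e]
    exact (norm_add_le _ _).trans (add_le_add hA hC)
  refine hfin.trans ?_
  calc _ = (2 * (∑' n, ppG (1 / 8) n) + ∑' n, B3 n) * h := by ring
    _ ≤ _ := by
        apply mul_le_mul_of_nonneg_right _ hh
        linarith

end Num
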