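import Pool.Agent.W197.Num.K2
import Pool.Agent.W197.Rig.C2

/-! # The logarithmic linear statistic by the explicit formula -/

open Complex Filter Topology Set MeasureTheory

namespace Num

open SG (phi hh nn dd dl)
open SP LG LG.NoZero Rig

/-- the logarithmic linear statistic -/
noncomputable def NL (T h D t : ℝ) : ℝ := ∑ᶠ s ∈ ZZ T, (mu s : ℝ) * Lg h D (s.im - t)

/-- prime side -/
noncomputable def PI (T h D : ℝ) (W : ℝ → ℂ) (t : ℝ) : ℂ :=
  ∫ x in h..(h * D), (∫ s in (t - x)..(t + x), ps T s W) / (x : ℂ)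

/-- error from the edges -/
noncomputable def ME (T k h D t : ℝ) : ℝ :=
  (Mk T k (t + h * D) + Mk T k (t - h * D)) / (h * D) + (Mk T k (t + h) + Mk T k (t - h)) / h +
    ∫ x in h..(h * D), (Mk T k (t + x) + Mk T k (t - x)) / x ^ 2

theorem NL_eq {T : ℝ} (hT : 1 ≤ T) (h D t : ℝ) : NL T h D t =
    ∑ s ∈ (ZZ_finite hT).toFinset, (mu s : ℝ) * Lg h D (s.im - t) :=
  finsum_mem_eq_finite_toFinset_sum _ (ZZ_finite hT)

theorem sym_cont {E : Type*} [NormedAddCommGroup E] [NormedSpace ℝ E] [CompleteSpace E]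
    {f : ℝ → E} (hf : Continuous f) (t : ℝ) :
    Continuous fun x : ℝ => ∫ s in (t - x)..(t + x), f s := by
  have hi : ∀ a b : ℝ, IntervalIntegrable f volume a b := fun a b => hf.intervalIntegrable _ _
  have e : (fun x : ℝ => ∫ s in (t - x)..(t + x), f s) =
      fun x : ℝ => (∫ v in (0 : ℝ)..(t + x), f v) - ∫ v in (0 : ℝ)..(t - x), f v := by
    funext x
    rw [intervalIntegral.integral_interval_sub_left (hi _ _) (hi _ _)]
  rw [e]
  have hp : Continuous fun a : ℝ => ∫ v in (0 : ℝ)..a, f v :=
    intervalIntegral.continuous_primitive hi 0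
  exact (hp.comp (by fun_prop)).sub (hp.comp (by fun_prop))

theorem Mk_cont {T : ℝ} (hT : 1 ≤ T) (k : ℝ) : Continuous (Mk T k) := by
  have e : Mk T k = fun t => ∑ s ∈ (ZZ_finite hT).toFinset,
      (mu s : ℝ) * Real.exp (-(s.im - t) ^ 2 / 2) / (1 + (Real.log T * (s.im - t) / k) ^ 2) := by
    funext t
    exact MkB.Mk_eq hT k t
  rw [e]
  apply continuous_finsetSum
  intro s _
  apply Continuous.div
  · fun_prop
  · fun_prop
  · intro x
    positivity

/-- zero side as a sum of kernels -/
theorem zs_log {T : ℝ} (hT : 1 ≤ T) (t h D : ℝ) {l : ℝ} (hl : 0 < l) (hlL : l ≤ Real.log T)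
    (hh : 0 < h) (hD : 1 ≤ D) :
    ∫ x in h..(h * D), (∫ s in (t - x)..(t + x), (zs T s (W3 l)).re) / x =
      ∑ s ∈ (ZZ_finite hT).toFinset, (mu s : ℝ) * Ker l h D (s.im - t) := by
  have hhD : h ≤ h * D := le_mul_of_one_le_right hh.le hD
  have hc := kg_cont hl
  have hpos : ∀ x ∈ uIcc h (h * D), x ≠ 0 := by
    intro x hx
    rw [uIcc_of_le hhD] at hx
    exact (hh.trans_le hx.1).ne'
  have e1 : ∀ x : ℝ, ∫ s in (t - x)..(t + x), (zs T s (W3 l)).re =
      ∑ s ∈ (ZZ_finite hT).toFinset, (mu s : ℝ) *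
        ∫ v in (s.im - t - x)..(s.im - t + x), kg l v := by
    intro x
    have h1 := zs_int hT (t - x) (2 * x) hl hlL
    have e2 : t - x + 2 * x = t + x := by ring
    rw [e2] at h1
    rw [h1]
    refine Finset.sum_congr rfl fun s _ => ?_
    congr 2 <;> ring
  simp_rw [e1, Finset.sum_div]
  rw [intervalIntegral.integral_finsetSum]
  · refine Finset.sum_congr rfl fun s _ => ?_
    unfold Ker
    rw [← intervalIntegral.integral_const_mul]
    refine intervalIntegral.integral_congr fun x _ => ?_
    show _ / x = _ * (_ / x)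
    ring
  · intro s _
    apply ContinuousOn.intervalIntegrable
    apply ContinuousOn.div _ continuousOn_id hpos
    exact (continuous_const.mul (sym_cont hc (s.im - t))).continuousOn

theorem edge_sum {T : ℝ} (hT : 10 ≤ T) (t h D : ℝ) {k : ℕ} (hk : 1 ≤ k) (hh : 0 < h) (hD : 1 ≤ D) :
    ∑ s ∈ (ZZ_finite (by linarith : 1 ≤ T)).toFinset, (mu s : ℝ) *
      ((EE (ell (1 / 4) T k) (h * D + (s.im - t)) + EE (ell (1 / 4) T k) (h * D - (s.im - t))) /
        (h * D) +
      (EE (ell (1 / 4) T k) (h + (s.im - t)) + EE (ell (1 / 4) T k) (h - (s.im - t))) / h +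
      ∫ x in h..(h * D), (EE (ell (1 / 4) T k) (x + (s.im - t)) +
        EE (ell (1 / 4) T k) (x - (s.im - t))) / x ^ 2) ≤ 16 * ME T k h D t := by
  have hT1 : 1 ≤ T := by linarith
  have hL : 0 < Real.log T := Real.log_pos (by linarith)
  have hk0 : (0 : ℝ) < k := by exact_mod_cast hk
  have hhD : h ≤ h * D := le_mul_of_one_le_right hh.le hD
  have hb : 0 < h * D := by positivity
  have hl := MkB.ell_pos (κ := 1 / 4) (by norm_num) hT hk
  have hl3 := MkB.ell_ge (κ := 1 / 4) (by norm_num) hT hk
  set l := ell (1 / 4) T k with hld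
  have hpos : ∀ x ∈ uIcc h (h * D), x ^ 2 ≠ 0 := by
    intro x hx
    rw [uIcc_of_le hhD] at hx
    exact pow_ne_zero 2 (hh.trans_le hx.1).ne'
  have hEc := EE_cont l
  set F := (NoZero.ZZ_finite hT1).toFinset with hF
  have hEE : ∀ a : ℝ, EE l a ≤ 16 * (Real.exp (-a ^ 2 / 2) / (1 + (Real.log T * a / k) ^ 2)) := by
    intro a
    unfold EE
    rw [mul_div_assoc', div_le_div_iff₀ (by positivity) (by positivity)]
    have e9 : (Real.log T * a / k) ^ 2 ≤ 16 * (l * a) ^ 2 := by
      have e10 : Real.log T / k ≤ 4 * l := by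
        have : Real.log T / (4 * k) = Real.log T / k / 4 := by
          field_simp
        rw [this] at hl3
        linarith
      have e11 : (Real.log T / k) ^ 2 ≤ (4 * l) ^ 2 := pow_le_pow_left₀ (by positivity) e10 2
      have e12 : (Real.log T * a / k) ^ 2 = (Real.log T / k) ^ 2 * a ^ 2 := by ring
      rw [e12]
      have := mul_le_mul_of_nonneg_right e11 (sq_nonneg a)
      calc _ ≤ _ := this
        _ = _ := by ring
    have e13 := (Real.exp_pos (-a ^ 2 / 2)).le
    have e14 : 1 + (Real.log T * a / k) ^ 2 ≤ 16 * (1 + (l * a) ^ 2) := by linarith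
    calc Real.exp (-a ^ 2 / 2) * (1 + (Real.log T * a / k) ^ 2)
        ≤ Real.exp (-a ^ 2 / 2) * (16 * (1 + (l * a) ^ 2)) :=
          mul_le_mul_of_nonneg_left e14 e13
      _ = _ := by ring
  -- sums at one point
  have hs1 : ∀ x : ℝ, ∑ s ∈ F, (mu s : ℝ) * (EE l (x + (s.im - t)) + EE l (x - (s.im - t))) ≤
      16 * (Mk T k (t + x) + Mk T k (t - x)) := by
    intro x
    rw [MkB.Mk_eq hT1, MkB.Mk_eq hT1, ← Finset.sum_add_distrib, Finset.mul_sum]
    refine Finset.sum_le_sum fun s _ => ?_
    have a1 := hEE (s.im - (t - x))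
    have a2 := hEE (s.im - (t + x))
    have b1 : EE l (x + (s.im - t)) = EE l (s.im - (t - x)) := by
      congr 1
      ring
    have b2 : EE l (x - (s.im - t)) = EE l (s.im - (t + x)) := by
      rw [← EE_neg]
      congr 1
      ring
    rw [b1, b2]
    calc (mu s : ℝ) * (EE l (s.im - (t - x)) + EE l (s.im - (t + x)))
        ≤ (mu s : ℝ) * (16 * (Real.exp (-(s.im - (t - x)) ^ 2 / 2) /
          (1 + (Real.log T * (s.im - (t - x)) / k) ^ 2)) +
          16 * (Real.exp (-(s.im - (t + x)) ^ 2 / 2) /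
          (1 + (Real.log T * (s.im - (t + x)) / k) ^ 2))) := by
          apply mul_le_mul_of_nonneg_left _ (by positivity)
          exact add_le_add a1 a2
      _ = _ := by ring
  -- linearity
  have hint : ∀ s ∈ F, IntervalIntegrable (fun x => (mu s : ℝ) *
      ((EE l (x + (s.im - t)) + EE l (x - (s.im - t))) / x ^ 2)) volume h (h * D) := by
    intro s _
    apply ContinuousOn.intervalIntegrable
    apply ContinuousOn.mul continuousOn_const
    apply ContinuousOn.div _ (continuous_id.pow 2).continuousOn hpos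
    exact ((hEc.comp (by fun_prop)).add (hEc.comp (by fun_prop))).continuousOn
  have hMc := Mk_cont hT1 k
  have h3 : ∑ s ∈ F, (mu s : ℝ) *
      ∫ x in h..(h * D), (EE l (x + (s.im - t)) + EE l (x - (s.im - t))) / x ^ 2 ≤
      16 * ∫ x in h..(h * D), (Mk T k (t + x) + Mk T k (t - x)) / x ^ 2 := by
    simp_rw [← intervalIntegral.integral_const_mul]
    rw [← intervalIntegral.integral_finsetSum hint]
    apply intervalIntegral.integral_mono_on hhD
    · apply ContinuousOn.intervalIntegrable
      apply continuousOn_finsetSum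
      intro s _
      apply ContinuousOn.mul continuousOn_const
      apply ContinuousOn.div _ (continuous_id.pow 2).continuousOn hpos
      exact ((hEc.comp (by fun_prop)).add (hEc.comp (by fun_prop))).continuousOn
    · apply ContinuousOn.intervalIntegrable
      apply ContinuousOn.mul continuousOn_const
      apply ContinuousOn.div _ (continuous_id.pow 2).continuousOn hpos
      exact ((hMc.comp (by fun_prop)).add (hMc.comp (by fun_prop))).continuousOn
    · intro x hx
      have hx0 : 0 < x := hh.trans_le hx.1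
      have e1 : ∑ s ∈ F, (mu s : ℝ) * ((EE l (x + (s.im - t)) + EE l (x - (s.im - t))) / x ^ 2) =
          (∑ s ∈ F, (mu s : ℝ) * (EE l (x + (s.im - t)) + EE l (x - (s.im - t)))) / x ^ 2 := by
        rw [Finset.sum_div]
        refine Finset.sum_congr rfl fun s _ => ?_
        ring
      rw [e1, mul_div_assoc']
      exact div_le_div_of_nonneg_right (hs1 x) (by positivity)
  have h1 : ∑ s ∈ F, (mu s : ℝ) * ((EE l (h * D + (s.im - t)) + EE l (h * D - (s.im - t))) /
      (h * D)) ≤ 16 * ((Mk T k (t + h * D) + Mk T k (t - h * D)) / (h * D)) := by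
    have e1 : ∑ s ∈ F, (mu s : ℝ) * ((EE l (h * D + (s.im - t)) + EE l (h * D - (s.im - t))) /
        (h * D)) = (∑ s ∈ F, (mu s : ℝ) *
        (EE l (h * D + (s.im - t)) + EE l (h * D - (s.im - t)))) / (h * D) := by
      rw [Finset.sum_div]
      refine Finset.sum_congr rfl fun s _ => ?_
      ring
    rw [e1, mul_div_assoc']
    exact div_le_div_of_nonneg_right (hs1 _) hb.le
  have h2 : ∑ s ∈ F, (mu s : ℝ) * ((EE l (h + (s.im - t)) + EE l (h - (s.im - t))) / h) ≤
      16 * ((Mk T k (t + h) + Mk T k (t - h)) / h) := by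
    have e1 : ∑ s ∈ F, (mu s : ℝ) * ((EE l (h + (s.im - t)) + EE l (h - (s.im - t))) / h) =
        (∑ s ∈ F, (mu s : ℝ) * (EE l (h + (s.im - t)) + EE l (h - (s.im - t)))) / h := by
      rw [Finset.sum_div]
      refine Finset.sum_congr rfl fun s _ => ?_
      ring
    rw [e1, mul_div_assoc']
    exact div_le_div_of_nonneg_right (hs1 _) hh.le
  have hsplit : ∑ s ∈ F, (mu s : ℝ) *
      ((EE l (h * D + (s.im - t)) + EE l (h * D - (s.im - t))) / (h * D) +
      (EE l (h + (s.im - t)) + EE l (h - (s.im - t))) / h +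
      ∫ x in h..(h * D), (EE l (x + (s.im - t)) + EE l (x - (s.im - t))) / x ^ 2) =
      (∑ s ∈ F, (mu s : ℝ) * ((EE l (h * D + (s.im - t)) + EE l (h * D - (s.im - t))) /
      (h * D))) + (∑ s ∈ F, (mu s : ℝ) * ((EE l (h + (s.im - t)) + EE l (h - (s.im - t))) / h)) +
      ∑ s ∈ F, (mu s : ℝ) *
        ∫ x in h..(h * D), (EE l (x + (s.im - t)) + EE l (x - (s.im - t))) / x ^ 2 := by
    rw [← Finset.sum_add_distrib, ← Finset.sum_add_distrib]
    refine Finset.sum_congr rfl fun s _ => ?_
    ring
  rw [hsplit]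
  unfold ME
  linarith

/-- the explicit formula for the logarithmic statistic -/
theorem log_stat (hRH : RHs) :
    ∃ C c0 T0 : ℝ, 0 < C ∧ 0 < c0 ∧ 10 ≤ T0 ∧ ∀ T : ℝ, T0 ≤ T → ∀ t h D : ℝ, 0 < h → 1 ≤ D →
    T + Real.log T ≤ t - h * D → t + h * D ≤ 2 * T - Real.log T → ∀ k : ℕ, 1 ≤ k →
    (k : ℝ) ≤ c0 * Real.log T →
    |NL T h D t - Real.log T * (h * D - h) / Real.pi| ≤ C * ((h * D - h) +
      ‖PI T h D (W3 (ell (1 / 4) T k)) t‖ + k / Real.log T * ME T k h D t) := by
  obtain ⟨C1, T1, hC1, hT1, h1⟩ := EFWm hRH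
  obtain ⟨l0, hl0, hl0'⟩ := NoZero.GG3_low
  have hpi := Real.pi_pos
  have hpi3 := Real.pi_gt_three
  have hsq : 0 < Real.sqrt (2 * Real.pi) := Real.sqrt_pos.2 (by positivity)
  have hsq2 : Real.sqrt (2 * Real.pi) * Real.sqrt (2 * Real.pi) = 2 * Real.pi :=
    Real.mul_self_sqrt (by positivity)
  refine ⟨4 * C1 + 8200 * 64 + 1, (1 - 1 / 4) / (2 * l0), T1, by positivity,
    by positivity, hT1, ?_⟩
  intro T hT t h D hh hD ht1 ht2 k hk hkc
  have hT10 : 10 ≤ T := hT1.trans hT
  have hT1' : 1 ≤ T := by linarith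
  have hL : 0 < Real.log T := Real.log_pos (by linarith)
  have hk0 : (0 : ℝ) < k := by exact_mod_cast hk
  have hhD : h ≤ h * D := le_mul_of_one_le_right hh.le hD
  have hl := MkB.ell_pos (κ := 1 / 4) (by norm_num) hT10 hk
  have hlL := MkB.ell_le_log (κ := 1 / 4) (by norm_num) hT10 hk
  have hl3 := MkB.ell_ge (κ := 1 / 4) (by norm_num) hT10 hk
  have hl0l : l0 ≤ ell (1 / 4) T k := by
    unfold ell
    rw [le_div_iff₀ (by positivity)]
    rw [div_mul_eq_mul_div, le_div_iff₀ (by positivity)] at hkc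
    linarith
  have hGl := hl0' _ hl0l
  have hedge := edge_sum hT10 t h D hk hh hD
  set l := ell (1 / 4) T k with hld
  have hw := W3_cont l hl
  have hW : ∀ u ∈ Set.Icc 0 (Real.log T), ‖W3 l u‖ ≤ 2 := fun u _ => hw.2 u
  set M : ℝ := MM l with hM
  have hM1 : 1 ≤ M := by
    have : Real.sqrt (2 * Real.pi) * (9 / 20 * Real.sqrt (2 * Real.pi)) ≤ M :=
      mul_le_mul_of_nonneg_left hGl hsq.le
    have e : Real.sqrt (2 * Real.pi) * (9 / 20 * Real.sqrt (2 * Real.pi)) =
        9 / 20 * (2 * Real.pi) := by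
      linear_combination (9 / 20 : ℝ) * hsq2
    rw [e] at this
    linarith
  set F := (NoZero.ZZ_finite hT1').toFinset with hF
  have hpos : ∀ x ∈ uIcc h (h * D), x ≠ 0 := by
    intro x hx
    rw [uIcc_of_le hhD] at hx
    exact (hh.trans_le hx.1).ne'
  -- pointwise explicit formula
  have e1 : ∀ s ∈ Set.Icc (t - h * D) (t + h * D), |(zs T s (W3 l)).re + (ps T s (W3 l)).re -
      Real.log T * M / (2 * Real.pi)| ≤ 2 * C1 := by
    intro s hs
    have e1 := h1 T hT s (by linarith [hs.1]) (by linarith [hs.2]) (W3 l) 2 hw.1 hW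
    rw [NoZero.gauss_int hl hlL] at e1
    have e2 := (Complex.abs_re_le_norm _).trans e1
    rw [Complex.sub_re, Complex.add_re, ← Complex.ofReal_mul, Complex.ofReal_re] at e2
    have e3 : Real.log T / Real.sqrt (2 * Real.pi) * GG3 l = Real.log T * M / (2 * Real.pi) := by
      rw [hM]
      unfold MM
      rw [div_mul_eq_mul_div, div_eq_div_iff hsq.ne' (by positivity)]
      linear_combination -(Real.log T * GG3 l) * hsq2
    rw [e3] at e2
    linarith
  have hzc := zs_cont hT1' hl hlL
  have hpc : Continuous fun s : ℝ => ps T s (W3 l) := ps_cont T hT1' (W3 l) 2 hW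
  have hprc : Continuous fun s : ℝ => (ps T s (W3 l)).re := Complex.continuous_re.comp hpc
  -- integrate over s
  have e2 : ∀ x ∈ Set.Icc h (h * D), |(∫ s in (t - x)..(t + x), (zs T s (W3 l)).re) +
      (∫ s in (t - x)..(t + x), (ps T s (W3 l)).re) - x * (Real.log T * M / Real.pi)| ≤
      4 * C1 * x := by
    intro x hx
    have hx0 : 0 < x := hh.trans_le hx.1
    have e3 := intervalIntegral.norm_integral_le_of_norm_le_const (a := t - x) (b := t + x)
      (C := 2 * C1) (f := fun s => (zs T s (W3 l)).re + (ps T s (W3 l)).re -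
      Real.log T * M / (2 * Real.pi)) (by
        intro s hs
        rw [Set.uIoc_of_le (by linarith)] at hs
        exact e1 s ⟨by linarith [hs.1, hx.2], by linarith [hs.2, hx.2]⟩)
    have e4 : t + x - (t - x) = 2 * x := by ring
    rw [e4, abs_of_pos (by linarith : 0 < 2 * x), intervalIntegral.integral_sub,
      intervalIntegral.integral_add, intervalIntegral.integral_const, smul_eq_mul,
      e4, Real.norm_eq_abs] at e3
    · have e5 : 2 * x * (Real.log T * M / (2 * Real.pi)) = x * (Real.log T * M / Real.pi) := by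
        field_simp
      rw [e5] at e3
      linarith
    · exact hzc.intervalIntegrable _ _
    · exact hprc.intervalIntegrable _ _
    · exact (hzc.add hprc).intervalIntegrable _ _
    · exact intervalIntegrable_const
  set A : ℝ → ℝ := fun x => ∫ s in (t - x)..(t + x), (zs T s (W3 l)).re with hA
  set B : ℝ → ℝ := fun x => ∫ s in (t - x)..(t + x), (ps T s (W3 l)).re with hB
  set Bc : ℝ → ℂ := fun x => ∫ s in (t - x)..(t + x), ps T s (W3 l) with hBc
  have hAc : Continuous A := sym_cont hzc t
  have hBc1 : Continuous B := sym_cont hprc t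
  have hBc2 : Continuous Bc := sym_cont hpc t
  have hBre : ∀ x, B x = (Bc x).re := by
    intro x
    have := Complex.reCLM.intervalIntegral_comp_comm
      (hpc.intervalIntegrable (μ := volume) (t - x) (t + x))
    simpa using this
  have iA : IntervalIntegrable (fun x => A x / x) volume h (h * D) :=
    (hAc.continuousOn.div continuousOn_id hpos).intervalIntegrable
  have iB : IntervalIntegrable (fun x => B x / x) volume h (h * D) :=
    (hBc1.continuousOn.div continuousOn_id hpos).intervalIntegrable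
  have hposc : ∀ x ∈ uIcc h (h * D), (x : ℂ) ≠ 0 := by
    intro x hx
    exact_mod_cast hpos x hx
  have iBc : IntervalIntegrable (fun x => Bc x / (x : ℂ)) volume h (h * D) := by
    apply ContinuousOn.intervalIntegrable
    exact hBc2.continuousOn.div (Complex.continuous_ofReal.continuousOn) hposc
  have hPre : ∫ x in h..(h * D), B x / x = (PI T h D (W3 l) t).re := by
    have h2 := Complex.reCLM.intervalIntegral_comp_comm iBc
    unfold PI
    show _ = Complex.reCLM (∫ x in h..(h * D), Bc x / (x : ℂ))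
    rw [← h2]
    refine intervalIntegral.integral_congr fun x _ => ?_
    show B x / x = (Bc x / (x : ℂ)).re
    rw [Complex.div_ofReal_re, hBre]
  -- integrate over x
  have e3 : |(∫ x in h..(h * D), A x / x) + (PI T h D (W3 l) t).re -
      (h * D - h) * (Real.log T * M / Real.pi)| ≤ 4 * C1 * (h * D - h) := by
    have e4 := intervalIntegral.norm_integral_le_of_norm_le_const (a := h) (b := h * D)
      (C := 4 * C1) (f := fun x => A x / x + B x / x - Real.log T * M / Real.pi) (by
        intro x hx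
        rw [Set.uIoc_of_le hhD] at hx
        have hx0 : 0 < x := hh.trans hx.1
        have e5 := e2 x ⟨hx.1.le, hx.2⟩
        have e6 : A x / x + B x / x - Real.log T * M / Real.pi =
            (A x + B x - x * (Real.log T * M / Real.pi)) / x := by
          field_simp
        rw [Real.norm_eq_abs, e6, abs_div, abs_of_pos hx0, div_le_iff₀ hx0]
        exact e5)
    rw [abs_of_nonneg (by linarith : 0 ≤ h * D - h), intervalIntegral.integral_sub (iA.add iB)
      intervalIntegrable_const, intervalIntegral.integral_add iA iB,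
      intervalIntegral.integral_const, smul_eq_mul, hPre, Real.norm_eq_abs] at e4
    exact e4
  have e5 : |(PI T h D (W3 l) t).re| ≤ ‖PI T h D (W3 l) t‖ := Complex.abs_re_le_norm _
  -- zero side
  have e6 : |(∫ x in h..(h * D), A x / x) - M * NL T h D t| ≤
      8200 * 64 * (k / Real.log T * ME T k h D t) := by
    rw [zs_log hT1' t h D hl hlL hh hD, NL_eq hT1', Finset.mul_sum, ← Finset.sum_sub_distrib]
    refine (Finset.abs_sum_le_sum_abs _ _).trans ?_
    have e7 : ∀ s ∈ F, |(mu s : ℝ) * Ker l h D (s.im - t) - M * ((mu s : ℝ) *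
        Lg h D (s.im - t))| ≤ 8200 / l * ((mu s : ℝ) *
      ((EE l (h * D + (s.im - t)) + EE l (h * D - (s.im - t))) / (h * D) +
      (EE l (h + (s.im - t)) + EE l (h - (s.im - t))) / h +
      ∫ x in h..(h * D), (EE l (x + (s.im - t)) + EE l (x - (s.im - t))) / x ^ 2)) := by
      intro s _
      have e8 : (mu s : ℝ) * Ker l h D (s.im - t) - M * ((mu s : ℝ) * Lg h D (s.im - t)) =
          (mu s : ℝ) * (Ker l h D (s.im - t) - M * Lg h D (s.im - t)) := by ring
      rw [e8, abs_mul, abs_of_nonneg (by positivity : (0 : ℝ) ≤ mu s)]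
      calc (mu s : ℝ) * |Ker l h D (s.im - t) - M * Lg h D (s.im - t)|
          ≤ (mu s : ℝ) * (8200 / l * ((EE l (h * D + (s.im - t)) + EE l (h * D - (s.im - t))) /
            (h * D) + (EE l (h + (s.im - t)) + EE l (h - (s.im - t))) / h +
            ∫ x in h..(h * D), (EE l (x + (s.im - t)) + EE l (x - (s.im - t))) / x ^ 2)) :=
            mul_le_mul_of_nonneg_left (Ker_bound hl hh hD _) (by positivity)
        _ = _ := by ring
    refine (Finset.sum_le_sum e7).trans ?_
    rw [← Finset.mul_sum]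
    have hME0 : 0 ≤ ME T k h D t := by
      unfold ME
      have a1 : ∀ x, 0 ≤ Mk T k x := fun x => MkB.Mk_nonneg hT1' k x
      have a2 : 0 ≤ ∫ x in h..(h * D), (Mk T k (t + x) + Mk T k (t - x)) / x ^ 2 :=
        intervalIntegral.integral_nonneg hhD fun x _ => by
          have := a1 (t + x)
          have := a1 (t - x)
          positivity
      have := a1 (t + h * D)
      have := a1 (t - h * D)
      have := a1 (t + h)
      have := a1 (t - h)
      have hb : 0 < h * D := by positivity
      positivity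
    have e9 : 8200 / l ≤ 8200 * 4 * (k / Real.log T) := by
      have e10 : 1 / l ≤ 4 * (k / Real.log T) := by
        rw [div_le_iff₀ hl]
        rw [div_le_iff₀ (by positivity)] at hl3
        have : 4 * (k / Real.log T) * l = (l * (4 * k)) / Real.log T := by ring
        rw [this, le_div_iff₀ hL, one_mul]
        exact hl3
      calc 8200 / l = 8200 * (1 / l) := by ring
        _ ≤ 8200 * (4 * (k / Real.log T)) := mul_le_mul_of_nonneg_left e10 (by norm_num)
        _ = _ := by ring
    calc _ ≤ 8200 / l * (16 * ME T k h D t) := mul_le_mul_of_nonneg_left hedge (by positivity)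
      _ ≤ 8200 * 4 * (k / Real.log T) * (16 * ME T k h D t) :=
          mul_le_mul_of_nonneg_right e9 (by positivity)
      _ = _ := by ring
  -- conclusion
  have hMEt : 0 ≤ k / Real.log T * ME T k h D t := by
    have := (abs_nonneg _).trans e6
    linarith
  have hP0 : 0 ≤ ‖PI T h D (W3 l) t‖ := norm_nonneg _
  have hd0 : 0 ≤ h * D - h := by linarith
  have e7 : M * |NL T h D t - Real.log T * (h * D - h) / Real.pi| ≤
      8200 * 64 * (k / Real.log T * ME T k h D t) + 4 * C1 * (h * D - h) +
      ‖PI T h D (W3 l) t‖ := by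
    have e9 : M * |NL T h D t - Real.log T * (h * D - h) / Real.pi| =
        |M * (NL T h D t - Real.log T * (h * D - h) / Real.pi)| := by
      rw [abs_mul, abs_of_pos (by linarith : 0 < M)]
    rw [e9]
    have e8 : M * (NL T h D t - Real.log T * (h * D - h) / Real.pi) = M * NL T h D t -
        (h * D - h) * (Real.log T * M / Real.pi) := by ring
    rw [e8]
    rw [abs_le] at e3 e5 e6 ⊢
    constructor <;> linarith [e3.1, e3.2, e5.1, e5.2, e6.1, e6.2]
  have e8 : |NL T h D t - Real.log T * (h * D - h) / Real.pi| ≤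
      M * |NL T h D t - Real.log T * (h * D - h) / Real.pi| :=
    le_mul_of_one_le_left (abs_nonneg _) hM1
  refine e8.trans (e7.trans ?_)
  have a1 : 8200 * 64 * (k / Real.log T * ME T k h D t) ≤
      (4 * C1 + 8200 * 64 + 1) * (k / Real.log T * ME T k h D t) := by
    apply mul_le_mul_of_nonneg_right _ hMEt
    linarith
  have a2 : 4 * C1 * (h * D - h) ≤ (4 * C1 + 8200 * 64 + 1) * (h * D - h) := by
    apply mul_le_mul_of_nonneg_right _ hd0
    linarith
  have a3 : ‖PI T h D (W3 l) t‖ ≤ (4 * C1 + 8200 * 64 + 1) * ‖PI T h D (W3 l) t‖ := by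
    apply le_mul_of_one_le_left hP0
    linarith
  rw [mul_add, mul_add]
  linarith

end Num
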