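import Pool.Agent.W197.Num.P2
import Pool.Agent.W197.Num.Z

/-! # The prime side of the logarithmic statistic -/

open Complex Filter Topology Set MeasureTheory

namespace Num

open SG (phi hh nn dd dl)
open SP LG Rig

/-- coefficients -/
noncomputable def al (T h D : ℝ) (W : ℝ → ℂ) (n : ℕ) : ℂ :=
  ((ArithmeticFunction.vonMangoldt n / Real.log n * (2 * sg h D (Real.log n)) : ℝ) : ℂ) *
    ((n : ℂ) ^ (-(1 / 2 : ℂ)) * bt T W n)

theorem two_sin (n : ℕ) (hn : 2 ≤ n) (x : ℝ) :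
    (n : ℂ) ^ (I * x) * (1 - (n : ℂ) ^ (-(I * ((2 * x : ℝ) : ℂ)))) =
      2 * I * (Real.sin (x * Real.log n) : ℝ) := by
  have hn0 : (n : ℂ) ≠ 0 := by exact_mod_cast (by omega : n ≠ 0)
  have hlc : Complex.log n = ((Real.log n : ℝ) : ℂ) := by
    rw [← Complex.natCast_log]
  rw [mul_sub, mul_one, ← Complex.cpow_add _ _ hn0, Complex.cpow_def_of_ne_zero hn0,
    Complex.cpow_def_of_ne_zero hn0, hlc, Complex.ofReal_sin, Complex.sin]
  have e1 : ((Real.log n : ℝ) : ℂ) * (I * x) = ((x * Real.log n : ℝ) : ℂ) * I := by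
    push_cast
    ring
  have e2 : ((Real.log n : ℝ) : ℂ) * (I * x + -(I * ((2 * x : ℝ) : ℂ))) =
      -((x * Real.log n : ℝ) : ℂ) * I := by
    push_cast
    ring
  rw [e1, e2]
  ring_nf
  rw [Complex.I_sq]
  ring

theorem gg_sym (T t x : ℝ) (W : ℝ → ℂ) (n : ℕ) (hn : 2 ≤ n) :
    gg T (t - x) (2 * x) W n = ((ArithmeticFunction.vonMangoldt n / Real.log n *
      (2 * Real.sin (x * Real.log n)) : ℝ) : ℂ) *
      ((n : ℂ) ^ (-(1 / 2 : ℂ)) * bt T W n) * (n : ℂ) ^ (-(I * t)) := by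
  have hn0 : (n : ℂ) ≠ 0 := by exact_mod_cast (by omega : n ≠ 0)
  have hlog : 0 < Real.log n := Real.log_pos (by exact_mod_cast hn)
  have hlc : ((Real.log n : ℝ) : ℂ) ≠ 0 := by exact_mod_cast hlog.ne'
  rw [gg_eq T _ _ W n hn]
  have e1 : (n : ℂ) ^ (-(I * ((t - x : ℝ) : ℂ))) = (n : ℂ) ^ (-(I * t)) * (n : ℂ) ^ (I * x) := by
    rw [← Complex.cpow_add _ _ hn0]
    congr 1
    push_cast
    ring
  have e2 := two_sin n hn x
  rw [e1]
  have e3 : (n : ℂ) ^ (-(1 / 2 : ℂ)) * ((n : ℂ) ^ (-(I * t)) * (n : ℂ) ^ (I * x)) *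
      (1 - (n : ℂ) ^ (-(I * ((2 * x : ℝ) : ℂ)))) / (I * Real.log n) =
      (n : ℂ) ^ (-(1 / 2 : ℂ)) * (n : ℂ) ^ (-(I * t)) * ((n : ℂ) ^ (I * x) *
      (1 - (n : ℂ) ^ (-(I * ((2 * x : ℝ) : ℂ))))) / (I * Real.log n) := by ring
  rw [e3, e2]
  have hI : (I : ℂ) ≠ 0 := I_ne_zero
  push_cast
  field_simp

theorem gg_log (T t h D : ℝ) (W : ℝ → ℂ) (n : ℕ) (hn : 2 ≤ n) :
    ∫ x in h..(h * D), gg T (t - x) (2 * x) W n / (x : ℂ) = al T h D W n * (n : ℂ) ^ (-(I * t)) := by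
  unfold al sg
  have e1 : ∀ x : ℝ, gg T (t - x) (2 * x) W n / (x : ℂ) =
      ((Real.sin (x * Real.log n) / x : ℝ) : ℂ) *
      (((ArithmeticFunction.vonMangoldt n / Real.log n * 2 : ℝ) : ℂ) *
      ((n : ℂ) ^ (-(1 / 2 : ℂ)) * bt T W n) * (n : ℂ) ^ (-(I * t))) := by
    intro x
    rw [gg_sym T t x W n hn]
    push_cast
    ring
  simp_rw [e1]
  rw [intervalIntegral.integral_mul_const, intervalIntegral.integral_ofReal]
  push_cast
  ring

theorem gg_sym_cont (T t : ℝ) (W : ℝ → ℂ) (n : ℕ) (hn : 2 ≤ n) :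
    Continuous fun x : ℝ => gg T (t - x) (2 * x) W n := by
  simp_rw [gg_sym T t _ W n hn]
  apply Continuous.mul _ continuous_const
  apply Continuous.mul _ continuous_const
  apply Complex.continuous_ofReal.comp
  fun_prop

/-- main sum -/
noncomputable def A1 (T h D l : ℝ) (W : ℝ → ℂ) (t : ℝ) : ℂ :=
  ∑ p ∈ PP (2 * l), al T h D W p * (p : ℂ) ^ (-(I * t))

/-- squares -/
noncomputable def A2 (T h D l : ℝ) (W : ℝ → ℂ) (t : ℝ) : ℂ :=
  ∑ p ∈ PP l, al T h D W (p ^ 2) * ((p ^ 2 : ℕ) : ℂ) ^ (-(I * t))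

theorem PI_main : ∃ C : ℝ, 0 < C ∧ ∀ T : ℝ, 1 ≤ T → ∀ t h D l : ℝ, 0 < h → 1 ≤ D → 0 < l →
    ∀ W : ℝ → ℂ, (∀ u ∈ Set.Icc 0 (Real.log T), ‖W u‖ ≤ 2) → (∀ u : ℝ, l ≤ u → W u = 0) →
    ‖PI T h D W t - (A1 T h D l W t + A2 T h D l W t)‖ ≤ C * (h * D - h) := by
  obtain ⟨C, hC, H⟩ := ps_main2
  refine ⟨2 * C, by positivity, ?_⟩
  intro T hT t h D l hh hD hl0 W hW hl
  have hhD : h ≤ h * D := le_mul_of_one_le_right hh.le hD
  have hpos : ∀ x ∈ uIcc h (h * D), x ≠ 0 := by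
    intro x hx
    rw [uIcc_of_le hhD] at hx
    exact (hh.trans_le hx.1).ne'
  have hposc : ∀ x ∈ uIcc h (h * D), (x : ℂ) ≠ 0 := by
    intro x hx
    exact_mod_cast hpos x hx
  have hpc : Continuous fun s : ℝ => ps T s W := ps_cont T hT W 2 hW
  have hsq : ∀ p ∈ PP l, 2 ≤ p ^ 2 := by
    intro p hp
    have := (mem_PP.1 hp).1.two_le
    nlinarith
  have c1 : ∀ p ∈ PP (2 * l), Continuous fun x : ℝ => gg T (t - x) (2 * x) W p := fun p hp =>
    gg_sym_cont T t W p (mem_PP.1 hp).1.two_le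
  have c2 : ∀ p ∈ PP l, Continuous fun x : ℝ => gg T (t - x) (2 * x) W (p ^ 2) := fun p hp =>
    gg_sym_cont T t W (p ^ 2) (hsq p hp)
  have i0 : IntervalIntegrable (fun x : ℝ => (∫ s in (t - x)..(t + x), ps T s W) / (x : ℂ))
      volume h (h * D) := by
    apply ContinuousOn.intervalIntegrable
    exact (sym_cont hpc t).continuousOn.div Complex.continuous_ofReal.continuousOn hposc
  have i1 : ∀ p ∈ PP (2 * l), IntervalIntegrable (fun x : ℝ => gg T (t - x) (2 * x) W p / (x : ℂ))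
      volume h (h * D) := fun p hp =>
    ((c1 p hp).continuousOn.div Complex.continuous_ofReal.continuousOn hposc).intervalIntegrable
  have i2 : ∀ p ∈ PP l, IntervalIntegrable (fun x : ℝ => gg T (t - x) (2 * x) W (p ^ 2) / (x : ℂ))
      volume h (h * D) := fun p hp =>
    ((c2 p hp).continuousOn.div Complex.continuous_ofReal.continuousOn hposc).intervalIntegrable
  have i1' : IntervalIntegrable (fun x : ℝ => ∑ p ∈ PP (2 * l), gg T (t - x) (2 * x) W p / (x : ℂ))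
      volume h (h * D) := by
    apply ContinuousOn.intervalIntegrable
    apply continuousOn_finsetSum
    intro p hp
    exact (c1 p hp).continuousOn.div Complex.continuous_ofReal.continuousOn hposc
  have i2' : IntervalIntegrable (fun x : ℝ => ∑ p ∈ PP l, gg T (t - x) (2 * x) W (p ^ 2) / (x : ℂ))
      volume h (h * D) := by
    apply ContinuousOn.intervalIntegrable
    apply continuousOn_finsetSum
    intro p hp
    exact (c2 p hp).continuousOn.div Complex.continuous_ofReal.continuousOn hposc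
  have e1 : A1 T h D l W t = ∫ x in h..(h * D), ∑ p ∈ PP (2 * l),
      gg T (t - x) (2 * x) W p / (x : ℂ) := by
    rw [intervalIntegral.integral_finsetSum i1]
    unfold A1
    refine Finset.sum_congr rfl fun p hp => ?_
    rw [gg_log T t h D W p (mem_PP.1 hp).1.two_le]
  have e2 : A2 T h D l W t = ∫ x in h..(h * D), ∑ p ∈ PP l,
      gg T (t - x) (2 * x) W (p ^ 2) / (x : ℂ) := by
    rw [intervalIntegral.integral_finsetSum i2]
    unfold A2
    refine Finset.sum_congr rfl fun p hp => ?_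
    rw [gg_log T t h D W (p ^ 2) (hsq p hp)]
  have e3 : PI T h D W t - (A1 T h D l W t + A2 T h D l W t) =
      ∫ x in h..(h * D), ((∫ s in (t - x)..(t + x), ps T s W) / (x : ℂ) -
        ((∑ p ∈ PP (2 * l), gg T (t - x) (2 * x) W p / (x : ℂ)) +
        ∑ p ∈ PP l, gg T (t - x) (2 * x) W (p ^ 2) / (x : ℂ))) := by
    rw [intervalIntegral.integral_sub i0 (i1'.add i2'), intervalIntegral.integral_add i1' i2',
      ← e1, ← e2]
    rfl
  rw [e3]
  have h1 := intervalIntegral.norm_integral_le_of_norm_le_const (a := h) (b := h * D)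
    (C := 2 * C) (f := fun x : ℝ => (∫ s in (t - x)..(t + x), ps T s W) / (x : ℂ) -
        ((∑ p ∈ PP (2 * l), gg T (t - x) (2 * x) W p / (x : ℂ)) +
        ∑ p ∈ PP l, gg T (t - x) (2 * x) W (p ^ 2) / (x : ℂ))) (by
      intro x hx
      rw [Set.uIoc_of_le hhD] at hx
      have hx0 : 0 < x := hh.trans hx.1
      have h2 := H T hT (t - x) (2 * x) l (by linarith) hl0 W hW hl
      have e4 : t - x + 2 * x = t + x := by ring
      rw [e4] at h2
      have e5 : (∫ s in (t - x)..(t + x), ps T s W) / (x : ℂ) -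
        ((∑ p ∈ PP (2 * l), gg T (t - x) (2 * x) W p / (x : ℂ)) +
        ∑ p ∈ PP l, gg T (t - x) (2 * x) W (p ^ 2) / (x : ℂ)) =
        ((∫ s in (t - x)..(t + x), ps T s W) - ((∑ p ∈ PP (2 * l), gg T (t - x) (2 * x) W p) +
        ∑ p ∈ PP l, gg T (t - x) (2 * x) W (p ^ 2))) / (x : ℂ) := by
        rw [← Finset.sum_div, ← Finset.sum_div]
        ring
      rw [e5, norm_div, Complex.norm_real, Real.norm_of_nonneg hx0.le, div_le_iff₀ hx0]
      linarith)
  rw [abs_of_nonneg (by linarith)] at h1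
  exact h1

end Num
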